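import Pool.Agent.Lib.MP_c5e1db_ag.Sub

/-!
The combinatorial core: lattices and monomial ideals vary simultaneously.
-/

namespace Pool.Agent.Lib.MP_c5e1db_ag

open Filter Topology Metric Finset

theorem dickson {s : ℕ} (A : Set (Fin s → ℕ)) :
    ∃ T : Set (Fin s → ℕ), T.Finite ∧ T ⊆ A ∧ ∀ a ∈ A, ∃ t ∈ T, t ≤ a := by
  have hA : A.IsPWO := Set.isPWO_of_wellQuasiOrderedLE A
  refine ⟨{x | Minimal (· ∈ A) x}, ?_, fun x hx => hx.prop, fun a ha => ?_⟩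
  · exact (setOfPred_minimal_antichain _).finite_of_partiallyWellOrderedOn
      (hA.mono fun x hx => hx.prop)
  · obtain ⟨b, hb, hb'⟩ := hA.exists_le_minimal ha
    exact ⟨b, hb', hb⟩

theorem core {s : ℕ} (N : ℕ → AddSubgroup (Fin s → ℝ))
    (hN : ∀ k (z : Fin s → ℤ), (fun i => (z i : ℝ)) ∈ N k) (I : ℕ → Finset (Fin s → ℕ))
    (w : ℕ → Fin s → ℝ) (hw : ∀ k, w k ∈ N k) (hw0 : ∀ k i, 0 < w k i) (c : ℕ → ℝ)
    (hc : ∀ k, ∀ m ∈ I k, ∑ i, w k i - ∑ i, w k i * m i < c k) :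
    ∃ j k, j < k ∧ ∃ w' ∈ N k, (∀ i, 0 < w' i) ∧
      ∀ m ∈ I k, ∑ i, w' i - ∑ i, w' i * m i < c j := by
  classical
  let U : Ultrafilter ℕ := hyperfilter ℕ
  let Λ : AddSubgroup (Fin s → ℝ) :=
    (AddMonoidHom.compLeft (Int.castAddHom ℝ) (Fin s)).range
  have h1 := eventually_le_limSub U N Λ 1 (fun k => by
      rintro _ ⟨z, rfl⟩; exact hN k z) (fun x => by
      refine ⟨_, ⟨fun i => ⌊x i⌋, rfl⟩, (pi_norm_le_iff_of_nonneg zero_le_one).2 fun i => ?_⟩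
      change ‖x i - (⌊x i⌋ : ℝ)‖ ≤ 1
      rw [Real.norm_eq_abs, abs_le]
      have := Int.floor_le (x i)
      have := Int.lt_floor_add_one (x i)
      constructor <;> linarith)
  let A : Set (Fin s → ℕ) := {m | ∀ᶠ k in (U : Filter ℕ), ∃ m' ∈ I k, m' ≤ m}
  obtain ⟨T, hT, hTA, hTm⟩ := dickson A
  have h2 : ∀ᶠ k in (U : Filter ℕ), ∀ t ∈ T, ∃ m' ∈ I k, m' ≤ t :=
    (eventually_all_finite hT).2 fun t ht => hTA ht
  obtain ⟨j, hj1, hj2⟩ := (h1.and h2).exists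
  -- an open neighbourhood of `w j`
  let V : Set (Fin s → ℝ) := {y | (∀ i, w j i / 2 < y i) ∧ ∑ i, y i < ∑ i, w j i + 1 ∧
    ∀ m ∈ I j, ∑ i, y i - ∑ i, y i * m i < c j}
  have hV : V ∈ 𝓝 (w j) := by
    refine IsOpen.mem_nhds ?_ ⟨fun i => by linarith [hw0 j i], by linarith, hc j⟩
    have e : V = (⋂ i, {y : Fin s → ℝ | w j i / 2 < y i}) ∩
        ({y | ∑ i, y i < ∑ i, w j i + 1} ∩
          ⋂ m ∈ I j, {y : Fin s → ℝ | ∑ i, y i - ∑ i, y i * m i < c j}) := by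
      ext y; simp [V]
    rw [e]
    refine (isOpen_iInter_of_finite fun i => isOpen_lt continuous_const (by fun_prop)).inter
      ((isOpen_lt (by fun_prop) continuous_const).inter
        (isOpen_biInter_finset fun m _ => isOpen_lt (by fun_prop) continuous_const))
  obtain ⟨ε, hε, hball⟩ := Metric.mem_nhds_iff.1 hV
  have h3 := mem_limSub.1 (hj1 (hw j)) ε hε
  obtain ⟨B, hB⟩ : ∃ B : ℕ, ∀ i, ∑ i, w j i + 1 - c j ≤ w j i / 2 * B := by
    have : ∀ i, ∃ B : ℕ, ∑ i, w j i + 1 - c j ≤ w j i / 2 * B := fun i => by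
      obtain ⟨B, hB⟩ := exists_nat_ge ((∑ i, w j i + 1 - c j) / (w j i / 2))
      have := hw0 j i
      rw [div_le_iff₀ (by positivity)] at hB
      exact ⟨B, by linarith⟩
    choose B hB using this
    refine ⟨univ.sup B, fun i => (hB i).trans ?_⟩
    have := hw0 j i
    exact mul_le_mul_of_nonneg_left (Nat.cast_le.2 (le_sup (mem_univ i))) (by positivity)
  have hfin : {m : Fin s → ℕ | m ≤ (fun _ => B) ∧ m ∉ A}.Finite :=
    (Set.finite_Iic (fun _ : Fin s => B)).subset fun m hm => hm.1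
  have h4 : ∀ᶠ k in (U : Filter ℕ), ∀ m ∈ {m : Fin s → ℕ | m ≤ (fun _ => B) ∧ m ∉ A},
      m ∉ I k := (eventually_all_finite hfin).2 fun m hm => by
    filter_upwards [Ultrafilter.eventually_not.2 hm.2] with k hk h
    exact hk ⟨m, h, le_rfl⟩
  have h5 : ∀ᶠ k in (U : Filter ℕ), j < k :=
    (hyperfilter_le_cofinite (α := ℕ)) (by
      rw [Nat.cofinite_eq_atTop]; exact eventually_gt_atTop j)
  obtain ⟨k, ⟨⟨y, hy, hy'⟩, hk4⟩, hk5⟩ := ((h3.and h4).and h5).exists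
  obtain ⟨v1, v2, v3⟩ : y ∈ V := hball (by rwa [mem_ball, dist_eq_norm])
  have hy0 : ∀ i, 0 < y i := fun i => by linarith [v1 i, hw0 j i]
  refine ⟨j, k, hk5, y, hy, hy0, fun m hm => ?_⟩
  by_cases hA : m ∈ A
  · obtain ⟨t, ht, htm⟩ := hTm m hA
    obtain ⟨m', hm', hle⟩ := hj2 t ht
    have h6 : ∑ i, y i * m' i ≤ ∑ i, y i * m i := sum_le_sum fun i _ =>
      mul_le_mul_of_nonneg_left (Nat.cast_le.2 ((hle.trans htm) i)) (hy0 i).le
    linarith [v3 m' hm']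
  · have h6 : ¬ m ≤ fun _ => B := fun h => hk4 m ⟨h, hA⟩ hm
    obtain ⟨i, hi⟩ := not_forall.1 h6
    have h7 : y i * m i ≤ ∑ i, y i * m i :=
      single_le_sum (f := fun i => y i * (m i : ℝ)) (fun i _ => by have := hy0 i; positivity)
        (mem_univ i)
    have h8 : (B : ℝ) ≤ m i := Nat.cast_le.2 (not_le.1 hi).le
    have h9 : w j i / 2 * B ≤ y i * m i :=
      mul_le_mul (v1 i).le h8 (Nat.cast_nonneg _) (hy0 i).le
    linarith [hB i]

end Pool.Agent.Lib.MP_c5e1db_ag
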