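import Mathlib

/-!
Definitions used in the statement: prime divisors as valuations, orders of top forms, Newton
nondegenerate hypersurface germs in affine toric varieties and their log discrepancies.
-/

namespace Pool.Agent.Lib.MP_c5e1db_ag

section

variable {d : ℕ} {F : Type} [Field F]

/-- The Laurent monomial `y ^ q`. -/
noncomputable def mono (y : Fin d → Fˣ) (q : Fin d → ℤ) : F := ((∏ j, y j ^ q j : Fˣ) : F)

/-- The value `∑ c q * y ^ q`, the sum over the exponents `q ∈ s`. -/
noncomputable def evs [Algebra ℂ F] (y : Fin d → Fˣ) (s : Finset (Fin d → ℤ))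
    (c : (Fin d → ℤ) → ℂ) : F :=
  ∑ q ∈ s, algebraMap ℂ F (c q) * mono y q

/-- The exponents in `s` on which the weight `w` is minimal. -/
def face (s : Finset (Fin d → ℤ)) (w : Fin d → ℤ) : Finset (Fin d → ℤ) :=
  s.filter fun q => ∀ q' ∈ s, w ⬝ᵥ q ≤ w ⬝ᵥ q'

/-- The lattice points of the cone dual to the cone spanned by `rays`. -/
def dual (rays : Finset (Fin d → ℤ)) : Set (Fin d → ℤ) := {m | ∀ e ∈ rays, 0 ≤ e ⬝ᵥ m}

end

section

variable {K : Type} [Field K] [Algebra ℂ K] {n : ℕ}

/-- The order of vanishing of `x` for the valuation `v`. -/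
noncomputable def ord (v : Valuation K (WithZero (Multiplicative ℤ))) (x : K) : ℤ :=
  - WithZero.log (v x)

/-- `v` is a normalised discrete valuation, trivial on `ℂ`, whose residue field contains `n - 1`
algebraically independent elements: a prime divisor of the function field `K` of dimension
`n`. -/
def IsPrimeDivisor (n : ℕ) (v : Valuation K (WithZero (Multiplicative ℤ))) : Prop :=
  Function.Surjective v ∧ (∀ c : ℂ, v (algebraMap ℂ K c) ≤ 1) ∧
    ∃ y : Fin (n - 1) → K, ∀ p : MvPolynomial (Fin (n - 1)) ℂ, p ≠ 0 →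
      v (MvPolynomial.aeval y p) = 1

/-- With `ω` the top form dual to the basis `D` of derivations,
`db₁ ∧ ⋯ ∧ dbₙ = jac D b • ω`. -/
noncomputable def jac (D : Fin n → Derivation ℂ K K) (b : Fin n → K) : K :=
  Matrix.det (Matrix.of fun a c => D a (b c))

/-- The rational top form `h • ω` has order `k` along `v`: `k` is the order of the quotient of
`h • ω` by a generator of the module spanned by the forms `db₁ ∧ ⋯ ∧ dbₙ` with all `bᵢ` regular
at `v`. -/
def FormOrd (D : Fin n → Derivation ℂ K K) (v : Valuation K (WithZero (Multiplicative ℤ)))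
    (h : K) (k : ℤ) : Prop :=
  IsLeast {j | ∃ b : Fin n → K, (∀ c, v (b c) ≤ 1) ∧ jac D b ≠ 0 ∧ j = ord v (jac D b)}
    (ord v h - k)

end

/-- An `n`-dimensional irreducible hypersurface `X = {g = 0}` in the affine toric variety `V` of
the cone spanned by `rays`, Newton nondegenerate at the torus fixed point, with `K_V + X`
`ℚ`-Cartier. The point `x` is the generic point of `X` and `K` its function field. -/
structure Germ (n : ℕ) where
  rays : Finset (Fin (n + 1) → ℤ)
  pointed : ∃ m : Fin (n + 1) → ℤ, ∀ e ∈ rays, 0 < e ⬝ᵥ m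
  full : ∀ m : Fin (n + 1) → ℤ, (∀ e ∈ rays, e ⬝ᵥ m = 0) → m = 0
  g : AddMonoidAlgebra ℂ (Fin (n + 1) → ℤ)
  nondeg : ∀ w : Fin (n + 1) → ℤ, (∀ m ∈ dual rays, m ≠ 0 → 0 < w ⬝ᵥ m) →
    ∀ y : Fin (n + 1) → ℂˣ, evs y (face g.coeff.support w) g.coeff = 0 →
      ∃ j, evs y (face g.coeff.support w) (fun q => g.coeff q * q j) ≠ 0
  ell : Fin (n + 1) → ℝ
  cartier : ∀ e ∈ rays, IsLeast ((fun q => ((e ⬝ᵥ q : ℤ) : ℝ)) '' g.coeff.support)
    (∑ j, ell j * e j - 1)
  K : Type
  [fld : Field K]
  [alg : Algebra ℂ K]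
  x : Fin (n + 1) → Kˣ
  ker : ∀ p : AddMonoidAlgebra ℂ (Fin (n + 1) → ℤ), evs x p.coeff.support p.coeff = 0 ↔ g ∣ p
  gen : IntermediateField.adjoin ℂ (Set.range fun j => (x j : K)) = ⊤
  D : Module.Basis (Fin n) K (Derivation ℂ K K)
  i : Fin (n + 1)
  hi : evs x g.coeff.support (fun q => g.coeff q * q i) ≠ 0

attribute [instance] Germ.fld Germ.alg

namespace Germ

variable {n : ℕ} (G : Germ n)

/-- The centre of `v` on `X` exists and contains the torus fixed point: `v` is nonnegative on the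
coordinate ring of `X` and functions that do not vanish at the fixed point are units. -/
def Centred (v : Valuation G.K (WithZero (Multiplicative ℤ))) : Prop :=
  (∀ m ∈ dual G.rays, v (mono G.x m) ≤ 1) ∧
    ∀ a ∈ Submodule.span ℂ (mono G.x '' (dual G.rays \ {0})), v (1 + a) = 1

/-- The Poincare residue of `dlog x₀ ∧ ⋯ ∧ dlog xₙ / g` along `X` is, up to sign,
`(⋀ j ≠ i, dlog xⱼ) / (xᵢ ∂g/∂xᵢ) = res • ω`. -/
noncomputable def res : G.K :=
  Matrix.det (Matrix.of fun a c => G.D a (G.x (G.i.succAbove c)) / G.x (G.i.succAbove c)) /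
    evs G.x G.g.coeff.support (fun q => G.g.coeff q * q G.i)

/-- The log discrepancies `1 + ord (x ^ ell * res • ω)` of the prime divisors over `X` whose centre
contains the fixed point, for the class `(K_V + X)` restricted to `X`, which is generated by
`x ^ ell * res • ω`. -/
def logDiscs : Set ℝ :=
  {a | ∃ v, IsPrimeDivisor n v ∧ G.Centred v ∧ ∃ k : ℤ, FormOrd G.D v G.res k ∧
    a = 1 + k + ∑ j, G.ell j * ord v (G.x j : G.K)}

end Germ

end Pool.Agent.Lib.MP_c5e1db_ag
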