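import Pool.Agent.Lib.MP_c5e1db_ag.Place

/-!
Log discrepancies are bounded below by toric ones, and toric ones are bounded below by log
discrepancies.
-/

namespace Pool.Agent.Lib.MP_c5e1db_ag

open Finset
open MP_813db1_ag (Γ Place monoChar lg phi mn Adapt trivPlace)

theorem mono_single {d : ℕ} {F : Type} [Field F] (y : Fin d → Fˣ) (j : Fin d) :
    mono y (Pi.single j 1) = y j := by
  rw [mono, Fintype.prod_eq_single j fun i hi => by simp [Pi.single_eq_of_ne hi]]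
  simp

theorem dot_hom {d : ℕ} (ν : (Fin d → ℤ) →+ ℤ) (m : Fin d → ℤ) :
    (fun j => ν (Pi.single j 1)) ⬝ᵥ m = ν m := by
  rw [MP_813db1_ag.addHom_eq (Pi.basisFun ℤ (Fin d)) ν m]
  simp [dotProduct, mul_comm]

theorem v_eq {K : Type} [Field K] (v : Valuation K Γ) {x : K} (h : v x ≠ 0) :
    v x = WithZero.exp (-ord v x) := by
  rw [ord, neg_neg, WithZero.exp_log h]

namespace Germ

variable {n : ℕ} (G : Germ n)

/-- The index equivalence singling out the coordinate `i`. -/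
def idx : Unit ⊕ Fin n ≃ Fin (n + 1) :=
  (Equiv.sumComm _ _).trans ((Equiv.optionEquivSumPUnit _).symm.trans (finSuccEquiv' G.i).symm)

instance : Nonempty G.g.coeff.support := G.supp_nonempty.coe_sort

open Classical in
/-- The system attached to a germ. -/
noncomputable def sy (v : Valuation G.K Γ) (h : G.Centred v) :
    Sy ℂ G.K n (Fin (n + 1) → ℤ) Unit (fun _ => G.g.coeff.support) where
  e := fun _ q => q.1
  c := fun _ q => G.g.coeff q.1
  χ := monoChar G.x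
  gen := by
    rw [eq_top_iff, ← G.gen]
    refine IntermediateField.adjoin.mono _ _ _ ?_
    rintro _ ⟨j, rfl⟩
    exact ⟨_, mono_single G.x j⟩
  rel := fun _ => (sum_coe_sort G.g.coeff.support fun q => algebraMap ℂ G.K (G.g.coeff q) *
    mono G.x q).trans G.rel
  nd := G.nd_centred _ ⟨fun _ _ => Valuation.one_apply_le_one _, fun a ha =>
    Valuation.one_apply_of_ne_zero fun h0 => by simpa [h0] using h.2 a ha⟩
  b := (Pi.basisFun ℤ (Fin (n + 1))).reindex G.idx.symm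
  D := G.D

theorem repr_b (v : Valuation G.K Γ) (h : G.Centred v) (m : Fin (n + 1) → ℤ) (x : Unit ⊕ Fin n) :
    (G.sy v h).b.repr m x = m (G.idx x) := Module.Basis.repr_reindex_apply _ _ _ _

theorem res_det (v : Valuation G.K Γ) (h : G.Centred v) : G.res ≠ 0 ∧
    ∀ q0 (q : Fin n → Fin (n + 1) → ℤ),
      (Matrix.of fun a c => lg (G.sy v h).χ ((G.sy v h).D a) (q c)).det =
        G.res * (∏ i, (G.sy v h).χ ((G.sy v h).e i (q0 i))) * ((G.sy v h).U q0 q).det := by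
  obtain ⟨⟨h0, hh0, hdet⟩, -⟩ := (G.sy v h).main_alg
  suffices G.res = h0 by rw [this]; exact ⟨hh0, hdet⟩
  let q0 : ∀ _ : Unit, G.g.coeff.support := fun _ => Classical.arbitrary _
  have h1 := hdet q0 fun c => Pi.single (G.i.succAbove c) 1
  have h2 : (G.sy v h).U q0 (fun c => Pi.single (G.i.succAbove c) 1) = Matrix.fromBlocks
      (Matrix.of fun i j => (G.sy v h).Th' q0 i (Sum.inl j))
      (Matrix.of fun i j => (G.sy v h).Th' q0 i (Sum.inr j)) 0 1 := by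
    ext (i | c) (j | c')
    · rfl
    · rfl
    · simp [Sy.U, Sy.co, repr_b, idx]
    · simp [Sy.U, Sy.co, repr_b, idx, Pi.single_apply, Matrix.one_apply, eq_comm]
  have h3 : (G.sy v h).Th () (Sum.inl ()) =
      evs G.x G.g.coeff.support (fun q => G.g.coeff q * q G.i) := by
    rw [evs, ← sum_coe_sort]
    refine sum_congr rfl fun q _ => ?_
    rw [map_mul, map_intCast, mul_right_comm, repr_b]
    rfl
  rw [h2, Matrix.det_fromBlocks_zero₂₁, Matrix.det_one, mul_one, Matrix.det_unique (n := Unit),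
    Fintype.prod_unique, mul_assoc, Matrix.of_apply, ← Sy.Th_eq, h3] at h1
  rw [res, div_eq_iff G.hi, ← h1]
  congr 1
  ext a c
  change _ = (mono G.x _)⁻¹ * G.D a (mono G.x _)
  rw [mono_single, Matrix.of_apply, div_eq_inv_mul]

theorem sum_ord (P : Place ℂ G.K) : ∑ j, G.ell j * ord P.v (G.x j : G.K) =
    ∑ j, G.ell j * P.nu (monoChar G.x) (Pi.single j 1) :=
  sum_congr rfl fun j _ => by rw [← mono_single]; rfl

theorem lower {a : ℝ} (ha : a ∈ G.logDiscs) (h1 : a < 1) :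
    ∃ w : Fin (n + 1) → ℤ, w ≠ 0 ∧ (∀ m ∈ dual G.rays, 0 ≤ w ⬝ᵥ m) ∧
      ¬ LocMono G.rays G.g.coeff.support w ∧
      ∀ q ∈ G.g.coeff.support, ∑ j, G.ell j * w j - (w ⬝ᵥ q : ℤ) ≤ a := by
  obtain ⟨v, ⟨hv, hk, -⟩, hc, k, hf, rfl⟩ := ha
  obtain ⟨P, rfl⟩ := MP_813db1_ag.exists_place v hk
  obtain ⟨h0, hdet⟩ := G.res_det P.v hc
  obtain ⟨b, hb, hb'⟩ := (G.sy P.v hc).lower G.res hdet P (G.nd_centred P hc) hv
  have hv0 : P.v G.res ≠ 0 := (Valuation.ne_zero_iff _).2 h0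
  have key : ∀ z : ℤ, WithZero.exp z * P.v G.res ≤ P.v (jac G.D b) → z ≤ k := fun z hz => by
    have h2 : P.v (jac G.D b) ≠ 0 := fun h => by
      rw [h, le_zero_iff] at hz
      exact mul_ne_zero WithZero.exp_ne_zero hv0 hz
    have h3 := hf.2 ⟨b, hb, (Valuation.ne_zero_iff _).1 h2, rfl⟩
    rw [v_eq _ h2, v_eq _ hv0, ← WithZero.exp_add, WithZero.exp_le_exp] at hz
    omega
  rw [G.sum_ord] at h1 ⊢
  rcases hb' with ⟨h2, h3⟩ | ⟨h2, h3⟩
  · have h4 := key 0 (by rw [WithZero.exp_zero, one_mul]; exact h3)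
    have h5 : P.nu (monoChar G.x) = 0 := h2
    have h6 : (0 : ℝ) ≤ k := by exact_mod_cast h4
    simp [h5] at h1
    linarith
  · have h4 := key (-1 + -phi (G.sy P.v hc).e (P.nu (monoChar G.x))) (by
      rw [WithZero.exp_add, mul_assoc, mul_comm _ (P.v G.res)]; exact h3)
    refine ⟨fun j => P.nu (monoChar G.x) (Pi.single j 1), fun h => h2 (AddMonoidHom.ext fun m => ?_),
      fun m hm => ?_, G.not_locMono P hc _ (dot_hom _), fun q hq => ?_⟩
    · exact (dot_hom (P.nu (monoChar G.x)) m).symm.trans (by rw [h]; simp)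
    · rw [dot_hom]; exact (P.v_chi_le_one _ _).1 (hc.1 m hm)
    · have h5 := MP_813db1_ag.mn_le (G.sy P.v hc).e (P.nu (monoChar G.x)) () ⟨q, hq⟩
      rw [phi, Fintype.sum_unique] at h4
      have h6 : -(P.nu (monoChar G.x) q) ≤ 1 + k := by
        change _ ≤ P.nu (monoChar G.x) q at h5
        change -1 + -mn _ _ () ≤ _ at h4
        omega
      have h7 : -((P.nu (monoChar G.x) q : ℤ) : ℝ) ≤ 1 + k := by exact_mod_cast h6
      rw [dot_hom]
      linarith

theorem upper (hn : 0 < n) (w qs : Fin (n + 1) → ℤ) (hq : w ⬝ᵥ qs = 1)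
    (hw : ∀ m ∈ dual G.rays, 0 ≤ w ⬝ᵥ m) (hL : ¬ LocMono G.rays G.g.coeff.support w) (c : ℝ)
    (hc1 : c ≤ 1) (hc : ∀ q ∈ G.g.coeff.support, ∑ j, G.ell j * w j - (w ⬝ᵥ q : ℤ) < c) :
    ∃ a ∈ G.logDiscs, a < c := by
  obtain ⟨P, hP, hcen, a, ha, hnu, mm, hmm, hind⟩ := G.exists_place hn w qs hq hw hL
  obtain ⟨h0, hdet⟩ := G.res_det P.v hcen
  have hv0 : P.v G.res ≠ 0 := (Valuation.ne_zero_iff _).2 h0
  let A : Adapt (P.nu (G.sy P.v hcen).χ) := ⟨dotHom w, qs, a, hnu, Or.inr ⟨hq, ha⟩⟩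
  have h1 := (G.sy P.v hcen).local_bound hn G.res h0 hdet P (G.nd_centred P hcen) A _ hind
    fun b => IntermediateField.subset_adjoin _ _ ⟨mm b, by simp only [A.p_of _ (hmm b)]; rfl⟩
  obtain ⟨q, hq'⟩ := MP_813db1_ag.exists_mn (G.sy P.v hcen).e (P.nu (monoChar G.x)) ()
  have h2 : ∀ z : ℤ, (∃ b : Fin n → G.K, (∀ c, P.v (b c) ≤ 1) ∧ jac G.D b ≠ 0 ∧
      z = ord P.v (jac G.D b)) → ord P.v G.res + a * (w ⬝ᵥ q.1) + a ≤ z := by
    rintro _ ⟨b, hb, hb0, rfl⟩
    have h3 := h1 b hb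
    change P.v (jac G.D b) ≤ _ * WithZero.exp (-(phi _ (P.nu (monoChar G.x)) + a)) at h3
    rw [v_eq _ ((Valuation.ne_zero_iff _).2 hb0), v_eq _ hv0, ← WithZero.exp_add,
      WithZero.exp_le_exp, phi, Fintype.sum_unique, ← hq'] at h3
    change _ ≤ _ + -(P.nu (monoChar G.x) q.1 + a) at h3
    rw [hnu] at h3
    omega
  obtain ⟨l, hl1, hl2⟩ := Int.exists_least_of_bdd ⟨_, h2⟩ (by
    obtain ⟨b, hb, hb'⟩ := (G.sy P.v hcen).lower G.res hdet P (G.nd_centred P hcen) hP.1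
    refine ⟨_, b, hb, fun h => ?_, rfl⟩
    change MP_813db1_ag.jac (G.sy P.v hcen).D b = 0 at h
    rw [h, map_zero, le_zero_iff, le_zero_iff] at hb'
    rcases hb' with h | h
    · exact hv0 h.2
    · exact mul_ne_zero WithZero.exp_ne_zero (mul_ne_zero hv0 WithZero.exp_ne_zero) h.2)
  refine ⟨_, ⟨P.v, hP, hcen, ord P.v G.res - l, ?_, rfl⟩, ?_⟩
  · rw [FormOrd, sub_sub_cancel]; exact ⟨hl1, hl2⟩
  · have h3 : ((ord P.v G.res + a * (w ⬝ᵥ q.1) + a : ℤ) : ℝ) ≤ l := by exact_mod_cast h2 l hl1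
    have h4 : ∑ j, G.ell j * P.nu (monoChar G.x) (Pi.single j 1) = a * ∑ j, G.ell j * w j := by
      rw [mul_sum]
      exact sum_congr rfl fun j _ => by rw [hnu, dotProduct_single]; push_cast; ring
    have h5 := hc q.1 q.2
    have h6 : (1 : ℝ) ≤ a := by exact_mod_cast ha
    rw [G.sum_ord, h4]
    push_cast at h3 h5 ⊢
    nlinarith

end Germ

end Pool.Agent.Lib.MP_c5e1db_ag
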