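import Pool.Agent.Lib.MP_c5e1db_ag.Wall

/-!
A multiplicative set of Laurent polynomials that avoids the multiples of a given polynomial, and
discrete valuations dominated by a valuation ring.
-/

namespace Pool.Agent.Lib.MP_c5e1db_ag

open Finset

variable {d : ℕ}

/-- The lexicographic combination of two weights. -/
def lexHom {M Λ : Type} [AddCommGroup M] [AddCommGroup Λ] (W : M →+ Λ) (ξ : M →+ ℤ) :
    M →+ Λ ×ₗ ℤ :=
  AddMonoidHom.mk' (fun m => toLex (W m, ξ m)) (fun a b => by rw [map_add, map_add]; rfl)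

theorem lexHom_le {M Λ : Type} [AddCommGroup M] [AddCommGroup Λ] [LinearOrder Λ] (W : M →+ Λ)
    (ξ : M →+ ℤ) (a b : M) :
    lexHom W ξ a ≤ lexHom W ξ b ↔ W a < W b ∨ W a = W b ∧ ξ a ≤ ξ b := Prod.Lex.toLex_le_toLex

section

variable {Λ : Type} [AddCommGroup Λ] [LinearOrder Λ] (W : (Fin d → ℤ) →+ Λ)
  (w ξ : (Fin d → ℤ) →+ ℤ)

/-- All exponents have weight at least `k`. -/
def Pos (k : ℤ) (p : AddMonoidAlgebra ℂ (Fin d → ℤ)) : Prop := ∀ m ∈ p.coeff.support, k ≤ w m

/-- The exponents of minimal weight are killed by `w` and `ξ`. -/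
def Good (p : AddMonoidAlgebra ℂ (Fin d → ℤ)) : Prop :=
  p ≠ 0 ∧ ∀ m ∈ p.coeff.support, (∀ m' ∈ p.coeff.support, W m ≤ W m') → w m = 0 ∧ ξ m = 0

variable {W w ξ}

theorem Pos.mul {k l : ℤ} {p q : AddMonoidAlgebra ℂ (Fin d → ℤ)} (hp : Pos w k p)
    (hq : Pos w l q) : Pos w (k + l) (p * q) := fun m hm => by
  obtain ⟨a, ha, b, hb, rfl⟩ := mem_support_mul hm
  rw [map_add]
  exact add_le_add (hp a ha) (hq b hb)

theorem Pos.add {k : ℤ} {p q : AddMonoidAlgebra ℂ (Fin d → ℤ)} (hp : Pos w k p)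
    (hq : Pos w k q) : Pos w k (p + q) := fun m hm => by
  classical
  rcases mem_union.1 (Finsupp.support_add hm) with h | h
  exacts [hp m h, hq m h]

theorem Pos.neg {k : ℤ} {p : AddMonoidAlgebra ℂ (Fin d → ℤ)} (hp : Pos w k p) :
    Pos w k (-p) := fun m hm => hp m (by simpa using hm)

theorem pos_single {k : ℤ} {m : Fin d → ℤ} (h : k ≤ w m) (c : ℂ) :
    Pos w k (AddMonoidAlgebra.single m c) := fun m' hm => by
  rw [mem_singleton.1 (Finsupp.support_single_subset hm)]; exact h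

theorem good_ker {p : AddMonoidAlgebra ℂ (Fin d → ℤ)} (h0 : p ≠ 0)
    (h : ∀ m ∈ p.coeff.support, w m = 0 ∧ ξ m = 0) : Good W w ξ p := ⟨h0, fun m hm _ => h m hm⟩

theorem good_one : Good W w ξ 1 := good_ker one_ne_zero fun m hm => by
  rw [mem_singleton.1 (Finsupp.support_single_subset hm)]; simp

theorem Good.exists_min {p : AddMonoidAlgebra ℂ (Fin d → ℤ)} (hp : Good W w ξ p) :
    ∃ m ∈ p.coeff.support, w m = 0 ∧ ∀ m' ∈ p.coeff.support, W m ≤ W m' := by
  obtain ⟨m, hm, h⟩ := p.coeff.support.exists_min_image W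
    (Finsupp.support_nonempty_iff.2 fun h => hp.1 (AddMonoidAlgebra.coeff_eq_zero.1 h))
  exact ⟨m, hm, (hp.2 m hm h).1, h⟩

theorem Good.pos (hW : ∀ a b, w a < w b → W a < W b) {p : AddMonoidAlgebra ℂ (Fin d → ℤ)}
    (hp : Good W w ξ p) : Pos w 0 p := fun m hm => by
  obtain ⟨m0, -, h1, h2⟩ := hp.exists_min
  by_contra h
  exact absurd (h2 m hm) (not_le.2 (hW _ _ (by omega)))

theorem Good.sub (hW : ∀ a b, w a < w b → W a < W b) {p t : AddMonoidAlgebra ℂ (Fin d → ℤ)}
    (hp : Good W w ξ p) (ht : Pos w 1 t) : Good W w ξ (p - t) := by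
  obtain ⟨m0, h0, h1, h2⟩ := hp.exists_min
  have key : ∀ m, w m ≤ 0 → (m ∈ (p - t).coeff.support ↔ m ∈ p.coeff.support) := fun m hm => by
    have : t.coeff m = 0 := by
      by_contra h
      have := ht m (Finsupp.mem_support_iff.2 h)
      omega
    simp [this]
  have h3 := (key m0 h1.le).2 h0
  refine ⟨fun h => by simp [h] at h3, fun m hm hmin => ?_⟩
  have h4 := hmin m0 h3
  refine hp.2 m ((key m ?_).1 hm) fun m' hm' => h4.trans (h2 m' hm')
  by_contra h
  exact absurd h4 (not_le.2 (hW _ _ (by omega)))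

theorem good_one_add {a : AddMonoidAlgebra ℂ (Fin d → ℤ)} (h : ∀ m ∈ a.coeff.support, 0 < W m) :
    Good W w ξ (1 + a) := by
  classical
  have h0 : (0 : Fin d → ℤ) ∈ (1 + a).coeff.support := by
    have : a.coeff 0 = 0 := by
      by_contra h'
      simpa using h 0 (Finsupp.mem_support_iff.2 h')
    simp [this, AddMonoidAlgebra.one_def]
  refine ⟨fun h => by simp [h] at h0, fun m hm hmin => ?_⟩
  rcases mem_union.1 (Finsupp.support_add hm) with h1 | h1
  · rw [mem_singleton.1 (Finsupp.support_single_subset h1)]; simp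
  · exact absurd (hmin 0 h0) (by simpa using h m h1)

variable [IsOrderedAddMonoid Λ]

theorem Good.mul {p q : AddMonoidAlgebra ℂ (Fin d → ℤ)} (hp : Good W w ξ p)
    (hq : Good W w ξ q) : Good W w ξ (p * q) := by
  obtain ⟨a, -, b, -, ha, hb, hab⟩ := exists_min_mul W hp.1 hq.1
  refine ⟨fun h => by simp [h] at hab, fun m hm hmin => ?_⟩
  obtain ⟨a', ha', b', hb', rfl⟩ := mem_support_mul hm
  have h1 := hmin _ hab
  rw [map_add, map_add] at h1
  have h2 : W a' ≤ W a := le_of_add_le_add_right (h1.trans (add_le_add_right (hb b' hb') _))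
  have h3 : W b' ≤ W b := le_of_add_le_add_left (h1.trans (add_le_add_left (ha a' ha') _))
  obtain ⟨h4, h5⟩ := hp.2 a' ha' fun x hx => h2.trans (ha x hx)
  obtain ⟨h6, h7⟩ := hq.2 b' hb' fun x hx => h3.trans (hb x hx)
  simp [h4, h5, h6, h7]

theorem Good.not_dvd {g p : AddMonoidAlgebra ℂ (Fin d → ℤ)} (hp : Good W w ξ p)
    {q1 q2 : Fin d → ℤ} (h1 : q1 ∈ g.coeff.support) (h2 : q2 ∈ g.coeff.support)
    (h3 : ∀ q ∈ g.coeff.support, W q1 ≤ W q) (h4 : W q2 = W q1) (h5 : ξ q1 ≠ ξ q2) : ¬ g ∣ p := by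
  rintro ⟨h, rfl⟩
  have key : ∀ η : (Fin d → ℤ) →+ ℤ, ∃ a b, b ∈ h.coeff.support ∧ η a ≤ η q1 ∧ η a ≤ η q2 ∧
      (∀ b' ∈ h.coeff.support, W b ≤ W b' ∧ (W b' ≤ W b → η b ≤ η b')) ∧ ξ (a + b) = 0 := by
    intro η
    obtain ⟨a, ha, b, hb, ha', hb', hab⟩ := exists_min_mul (lexHom W η)
      (left_ne_zero_of_mul hp.1) (right_ne_zero_of_mul hp.1)
    simp only [lexHom_le] at ha' hb'
    have e1 : ∀ x ∈ g.coeff.support, W a ≤ W x := fun x hx =>
      (ha' x hx).elim le_of_lt fun h => h.1.le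
    have e2 : ∀ x ∈ h.coeff.support, W b ≤ W x := fun x hx =>
      (hb' x hx).elim le_of_lt fun h => h.1.le
    refine ⟨a, b, hb, ((ha' q1 h1).resolve_left (not_lt.2 (h3 a ha))).2,
      ((ha' q2 h2).resolve_left (not_lt.2 (h4 ▸ h3 a ha))).2,
      fun x hx => ⟨e2 x hx, fun h => ((hb' x hx).resolve_left (not_lt.2 h)).2⟩,
      (hp.2 _ hab fun m hm => ?_).2⟩
    obtain ⟨x, hx, y, hy, rfl⟩ := mem_support_mul hm
    rw [map_add, map_add]
    exact add_le_add (e1 x hx) (e2 y hy)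
  obtain ⟨a, b, hb, a1, a2, a3, a4⟩ := key ξ
  obtain ⟨a', b', hb', b1, b2, b3, b4⟩ := key (-ξ)
  have := (a3 b' hb').2 (b3 b hb).1
  simp only [AddMonoidHom.neg_apply, map_add] at *
  omega

end

open scoped IntermediateField IntermediateField.algebraAdjoinAdjoin in
theorem exists_dvr {E K : Type} [Field E] [CharZero E] [Field K] [Algebra E K] (t : K)
    (ht0 : t ≠ 0) [FiniteDimensional E⟮t⟯ K] (R : ValuationSubring K)
    (hE : ∀ c : E, algebraMap E K c ∈ R) (ht : R.valuation t < 1) :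
    ∃ v : Valuation K (WithZero (Multiplicative ℤ)), Function.Surjective v ∧ v t < 1 ∧
      ∀ z ∈ R, v z ≤ 1 := by
  let A := Algebra.adjoin E {t}
  have hA : ∀ a : A, (a : K) ∈ R := fun a =>
    (Algebra.adjoin_le (S := { R.toSubring with algebraMap_mem' := hE })
      (Set.singleton_subset_iff.2 ((R.valuation_le_one_iff t).1 ht.le))) a.2
  have : IsPrincipalIdealRing A := by
    refine IsPrincipalIdealRing.of_surjective
      (Polynomial.aeval (R := E) (⟨t, Algebra.self_mem_adjoin_singleton E t⟩ : A)).toRingHom ?_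
    rintro ⟨a, ha⟩
    obtain ⟨p, rfl⟩ := (Algebra.adjoin_singleton_eq_range_aeval E t).le ha
    exact ⟨p, Subtype.ext (Polynomial.aeval_algebraMap_apply K
      (⟨t, Algebra.self_mem_adjoin_singleton E t⟩ : A) p).symm⟩
  have : CharZero E⟮t⟯ := charZero_of_injective_algebraMap (algebraMap E _).injective
  have : IsDedekindDomain (integralClosure A K) := IsIntegralClosure.isDedekindDomain A E⟮t⟯ K _
  have : IsFractionRing (integralClosure A K) K :=
    integralClosure.isFractionRing_of_finite_extension E⟮t⟯ K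
  have hB : ∀ b : integralClosure A K, (b : K) ∈ R := fun b => by
    let _ : Algebra A R := (A.val.toRingHom.codRestrict R.toSubring hA).toAlgebra
    have : IsScalarTower A R K := IsScalarTower.of_algebraMap_eq fun _ => rfl
    obtain ⟨y, hy⟩ := IsIntegrallyClosed.isIntegral_iff.1 (IsIntegral.tower_top (A := R) b.2)
    exact hy ▸ y.2
  let ψ : integralClosure A K →+* R := (integralClosure A K).val.toRingHom.codRestrict
    R.toSubring hB
  have hm : ∀ b, b ∈ (IsLocalRing.maximalIdeal R).comap ψ ↔ R.valuation (b : K) < 1 := fun b =>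
    R.valuation_lt_one_iff (ψ b)
  let t' := algebraMap A (integralClosure A K) ⟨t, Algebra.self_mem_adjoin_singleton E t⟩
  let 𝔭 : IsDedekindDomain.HeightOneSpectrum (integralClosure A K) :=
    ⟨(IsLocalRing.maximalIdeal R).comap ψ, inferInstance, fun h => ht0 (by
      have := (hm t').2 ht
      rw [h] at this
      exact congrArg Subtype.val this)⟩
  refine ⟨𝔭.valuation K, 𝔭.valuation_surjective K,
    (𝔭.valuation_lt_one_iff_mem t').2 ((hm t').2 ht), fun z hz => ?_⟩
  by_contra h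
  have h1 : 𝔭.valuation K z⁻¹ < 1 := by
    rw [map_inv₀]; exact inv_lt_one_of_one_lt₀ (not_le.1 h)
  obtain ⟨a, b, hab⟩ := 𝔭.exists_primeCompl_mul_eq_of_integer z⁻¹ h1.le
  have h2 : 𝔭.valuation K (algebraMap _ K a) < 1 := by
    rw [← hab, map_mul]
    exact (mul_le_of_le_one_right' (𝔭.valuation_le_one _)).trans_lt h1
  have h3 := (hm a).1 ((𝔭.valuation_lt_one_iff_mem a).1 h2)
  have hz0 : z ≠ 0 := by rintro rfl; simp at h
  refine b.2 ((hm b).2 ?_)
  have h4 : ((b : integralClosure A K) : K) = z * (a : K) := by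
    change algebraMap _ K (b : integralClosure A K) = z * algebraMap _ K a
    rw [← hab, mul_inv_cancel_left₀ hz0]
  rw [h4, map_mul]
  exact (mul_le_of_le_one_left' ((R.valuation_le_one_iff z).2 hz)).trans_lt h3

end Pool.Agent.Lib.MP_c5e1db_ag
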