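import Pool.Agent.Lib.MP_c5e1db_ag.Disc
import Pool.Agent.Lib.MP_c5e1db_ag.Core

/-!
The ascending chain condition below one.
-/

namespace Pool.Agent.Lib.MP_c5e1db_ag

open Finset

theorem cone_rep {d : ℕ} (rays : Finset (Fin d → ℤ)) (w : Fin d → ℤ) (h0 : w ≠ 0)
    (hw : ∀ m ∈ dual rays, 0 ≤ w ⬝ᵥ m) :
    ∃ (e : Fin (d + 1) → Fin d → ℤ) (l : Fin (d + 1) → ℝ), (∀ i, e i ∈ rays) ∧ (∀ i, 0 < l i) ∧
      ∀ j, (w j : ℝ) = ∑ i, l i * e i j := by
  classical
  have h1 : ∃ (k : ℕ) (a : rays → ℕ), 0 < k ∧ ∀ j, (k : ℤ) * w j = ∑ e, a e * e.1 j := by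
    by_contra hcon
    obtain ⟨m, u, hm, hu⟩ := MP_813db1_ag.CombAux.farkas (M := Fin d → ℤ) (T := Option rays)
      (fun t => t.elim (-dotHom w) fun e => dotHom e.1) (fun t => t.elim 1 0) (fun a ha => by
        by_contra h
        refine hcon ⟨a none, fun e => a (some e), Nat.pos_of_ne_zero (by simpa using h), fun j => ?_⟩
        have := DFunLike.congr_fun ha (Pi.single j 1)
        simp [dotHom, AddMonoidHom.finsetSum_apply] at this
        simp only [univ_eq_attach]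
        linarith)
    have a1 := hu none
    have a2 := hw u fun e he => by simpa [dotHom] using hu (some ⟨e, he⟩)
    simp only [Option.elim_none, mul_one, AddMonoidHom.neg_apply, dotHom,
      AddMonoidHom.mk'_apply] at a1
    omega
  obtain ⟨k, a, hk, ha⟩ := h1
  have hT : 0 < ∑ e, (a e : ℝ) := by
    refine lt_of_le_of_ne (by positivity) fun h => h0 (funext fun j => ?_)
    have h2 := (sum_eq_zero_iff_of_nonneg fun e _ => Nat.cast_nonneg (α := ℝ) (a e)).1 h.symm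
    have h3 := ha j
    rw [sum_eq_zero fun e he => by rw [Nat.cast_eq_zero.1 (h2 e he)]; simp] at h3
    simpa [hk.ne'] using h3
  obtain ⟨ι, _, z, c, hz, hind, hc, hc1, hx⟩ := eq_pos_convex_span_of_mem_convexHull
    (univ.centerMass_mem_convexHull (s := (fun e j => (e j : ℝ)) '' (rays : Set (Fin d → ℤ)))
      (w := fun e : rays => (a e : ℝ)) (z := fun e j => (e.1 j : ℝ))
      (fun e _ => Nat.cast_nonneg _) hT fun e _ => ⟨e.1, e.2, rfl⟩)
  have : Nonempty ι := by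
    by_contra h
    rw [not_nonempty_iff] at h
    simp at hc1
  have hcard : Fintype.card ι ≤ Fintype.card (Fin (d + 1)) := by
    have := hind.card_le_finrank_succ
    have := Submodule.finrank_le (vectorSpan ℝ (Set.range z))
    simp only [Module.finrank_fintype_fun_eq_card, Fintype.card_fin] at this ⊢
    omega
  obtain ⟨g⟩ := Function.Embedding.nonempty_of_card_le hcard
  let f := Function.invFun g
  have hf : ∀ x, 0 < (univ.filter fun i => f i = x).card := fun x => card_pos.2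
    ⟨g x, mem_filter.2 ⟨mem_univ _, Function.leftInverse_invFun g.injective x⟩⟩
  choose e he he' using fun x => hz ⟨x, rfl⟩
  refine ⟨fun i => e (f i), fun i => (∑ e, (a e : ℝ)) / k * c (f i) /
    (univ.filter fun i' => f i' = f i).card, fun i => he _, fun i => ?_, fun j => ?_⟩
  · have := hc (f i)
    have := hf (f i)
    positivity
  · rw [← sum_fiberwise univ f]
    have h2 := congrFun hx j
    have h3 : (k : ℝ) * w j = ∑ e, (a e : ℝ) * e.1 j := by exact_mod_cast ha j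
    simp only [centerMass, Finset.sum_apply, Pi.smul_apply, smul_eq_mul, ← h3] at h2
    have h4 : (w j : ℝ) = (∑ e, (a e : ℝ)) / k * ∑ x, c x * z x j := by
      rw [h2]
      have : (k : ℝ) ≠ 0 := by positivity
      field_simp
    rw [h4, mul_sum]
    refine sum_congr rfl fun x _ => ?_
    refine Eq.trans ?_ (sum_congr rfl (f := fun _ => (∑ e, (a e : ℝ)) / k * c x /
      (univ.filter fun i' => f i' = x).card * e x j) fun i hi => by simp only [(mem_filter.1 hi).2])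
    rw [sum_const, nsmul_eq_mul, ← he' x]
    have : ((univ.filter fun i => f i = x).card : ℝ) ≠ 0 := by exact_mod_cast (hf x).ne'
    field_simp

theorem dot_rep {d s : ℕ} {e : Fin s → Fin d → ℤ} {l : Fin s → ℝ} {w : Fin d → ℤ}
    (h : ∀ j, (w j : ℝ) = ∑ i, l i * e i j) (m : Fin d → ℤ) :
    ((w ⬝ᵥ m : ℤ) : ℝ) = ∑ i, l i * (e i ⬝ᵥ m : ℤ) := by
  simp only [dotProduct, Int.cast_sum, Int.cast_mul, h, sum_mul, mul_sum, mul_assoc]
  exact sum_comm

theorem Germ.step {n s : ℕ} (G : Germ n) (hn : 0 < n) (e : Fin (s + 1) → Fin (n + 1) → ℤ)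
    (he : ∀ i, e i ∈ G.rays) (l l' : Fin (s + 1) → ℝ) (hl : ∀ i, 0 < l i) (hl' : ∀ i, 0 < l' i)
    (ν w : Fin (n + 1) → ℤ) (hν : ∀ j, (ν j : ℝ) = ∑ i, l i * e i j)
    (hw : ∀ j, (w j : ℝ) = ∑ i, l' i * e i j) (hL : ¬ LocMono G.rays G.g.coeff.support ν) (c : ℝ)
    (hc0 : 0 < c) (hc1 : c ≤ 1)
    (hc : ∀ q ∈ G.g.coeff.support, ∑ j, G.ell j * w j - (w ⬝ᵥ q : ℤ) < c) :
    ∃ a ∈ G.logDiscs, a < c := by
  obtain ⟨m0, hm0⟩ := G.pointed
  have a1 : ∀ m ∈ dual G.rays, 0 ≤ w ⬝ᵥ m := fun m hm => by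
    rw [← Int.cast_nonneg_iff (R := ℝ), dot_rep hw]
    exact sum_nonneg fun i _ => mul_nonneg (hl' i).le (by exact_mod_cast hm _ (he i))
  have a2 : 0 < w ⬝ᵥ m0 := by
    rw [← Int.cast_pos (R := ℝ), dot_rep hw]
    exact sum_pos (fun i _ => mul_pos (hl' i) (by exact_mod_cast hm0 _ (he i))) univ_nonempty
  have h1 : ∃ w1 : Fin (n + 1) → ℤ, (∀ m ∈ dual G.rays, 0 ≤ w1 ⬝ᵥ m) ∧ 0 < w1 ⬝ᵥ m0 ∧
      ¬ LocMono G.rays G.g.coeff.support w1 ∧
      ∀ q ∈ G.g.coeff.support, ∑ j, G.ell j * w1 j - (w1 ⬝ᵥ q : ℤ) < c := by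
    by_cases h : LocMono G.rays G.g.coeff.support w
    swap
    · exact ⟨w, a1, a2, h, hc⟩
    obtain ⟨m, hm, hm'⟩ := h
    obtain ⟨hms, hmin⟩ := mem_face.1 hm
    have h2 : ∃ i, ∃ q ∈ G.g.coeff.support, e i ⬝ᵥ q < e i ⬝ᵥ m := by
      by_contra hcon
      push Not at hcon
      have h3 : ∀ i, ∀ q ∈ G.g.coeff.support, ((e i ⬝ᵥ m : ℤ) : ℝ) ≤ (e i ⬝ᵥ q : ℤ) :=
        fun i q hq => by exact_mod_cast hcon i q hq
      refine hL ⟨m, mem_face.2 ⟨hms, fun q hq => ?_⟩, fun q hq => hm' q ?_⟩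
      · rw [← Int.cast_le (R := ℝ), dot_rep hν, dot_rep hν]
        exact sum_le_sum fun i _ => mul_le_mul_of_nonneg_left (h3 i q hq) (hl i).le
      · obtain ⟨hqs, hqmin⟩ := mem_face.1 hq
        have h4 := hqmin m hms
        rw [← Int.cast_le (R := ℝ), dot_rep hν, dot_rep hν] at h4
        have h5 := (sum_eq_sum_iff_of_le fun i _ => mul_le_mul_of_nonneg_left (h3 i q hqs)
          (hl i).le).1 (le_antisymm (sum_le_sum fun i _ => mul_le_mul_of_nonneg_left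
            (h3 i q hqs) (hl i).le) h4)
        refine mem_face.2 ⟨hqs, fun q' hq' => le_trans ?_ (hmin q' hq')⟩
        rw [← Int.cast_le (R := ℝ), dot_rep hw, dot_rep hw]
        exact sum_le_sum fun i _ => by rw [mul_left_cancel₀ (hl i).ne' (h5 i (mem_univ _))]
    obtain ⟨i, h2⟩ := h2
    obtain ⟨σ, τ, hσ, hτ, h3, h4⟩ := move G.rays _ G.ell w (e i) m c hc1 (he i)
      (fun q hq => (G.cartier _ (he i)).2 ⟨q, hq, rfl⟩) a1 hc hm hm' h2
    refine ⟨_, fun m hm => ?_, ?_, h3, h4⟩ <;>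
      rw [add_dotProduct, smul_dotProduct, smul_dotProduct, smul_eq_mul, smul_eq_mul]
    · exact add_nonneg (mul_nonneg hσ.le (a1 m hm)) (mul_nonneg hτ.le (hm _ (he i)))
    · exact add_pos (mul_pos hσ a2) (mul_pos hτ (hm0 _ (he i)))
  obtain ⟨w1, b1, b2, b3, b4⟩ := h1
  obtain ⟨ν', qs, a, ha, h2, h3⟩ := MP_813db1_ag.prim_decomp (dotHom w1) fun h =>
    b2.ne' (DFunLike.congr_fun h m0)
  let w2 : Fin (n + 1) → ℤ := fun j => ν' (Pi.single j 1)
  have h4 : ∀ m, w1 ⬝ᵥ m = a * (w2 ⬝ᵥ m) := fun m => by rw [dot_hom]; exact h3 m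
  have h5 : face G.g.coeff.support w2 = face G.g.coeff.support w1 := by
    ext q
    simp only [mem_face, h4, mul_le_mul_iff_right₀ ha]
  refine G.upper hn w2 qs (by rw [dot_hom]; exact h2)
    (fun m hm => (mul_nonneg_iff_of_pos_left ha).1 (h4 m ▸ b1 m hm))
    (by rwa [LocMono, h5]) c hc1 fun q hq => ?_
  have h6 := b4 q hq
  have h7 : ∑ j, G.ell j * w1 j = a * ∑ j, G.ell j * w2 j := by
    rw [mul_sum]
    refine sum_congr rfl fun j _ => ?_
    have := h4 (Pi.single j 1)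
    rw [dotProduct_single, dotProduct_single, mul_one, mul_one] at this
    rw [this]; push_cast; ring
  have h8 : (1 : ℝ) ≤ a := by exact_mod_cast ha
  rw [h7, h4, Int.cast_mul, ← mul_sub] at h6
  by_contra h9
  nlinarith

theorem acc (n : ℕ) (hn : 0 < n) (μ : ℕ → ℝ)
    (h : ∀ k, ∃ G : Germ n, IsGLB G.logDiscs (μ k) ∧ 0 ≤ μ k ∧ μ k < 1) : ¬ StrictMono μ := by
  classical
  intro hμ
  choose G hG h0 h1 using h
  have h2 : ∀ k, ∃ a ∈ (G k).logDiscs, a < μ (k + 1) := fun k =>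
    (isGLB_lt_iff (hG k)).1 (hμ (Nat.lt_succ_self k))
  choose a ha ha' using h2
  choose ν hν0 hν1 hν2 hν3 using fun k => (G k).lower (ha k) ((ha' k).trans (h1 _))
  choose e l he hl hrep using fun k => cone_rep (G k).rays (ν k) (hν0 k) (hν1 k)
  have h3 : ∀ k i, ∃ q0 : Fin (n + 1) → ℤ, ((e k i ⬝ᵥ q0 : ℤ) : ℝ) =
      ∑ j, (G k).ell j * e k i j - 1 ∧
      ∀ q ∈ (G k).g.coeff.support, e k i ⬝ᵥ q0 ≤ e k i ⬝ᵥ q := fun k i => by
    obtain ⟨⟨q0, -, h⟩, h'⟩ := (G k).cartier _ (he k i)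
    refine ⟨q0, h, fun q hq => ?_⟩
    have := h' ⟨q, hq, rfl⟩
    rw [← h] at this
    exact Int.cast_le.1 this
  choose q0 hq0 hq0' using h3
  let N : ℕ → AddSubgroup (Fin (n + 1 + 1) → ℝ) := fun k =>
    { carrier := {s | ∃ w : Fin (n + 1) → ℤ, ∀ j, (w j : ℝ) = ∑ i, s i * e k i j}
      add_mem' := by
        rintro s t ⟨w, hw⟩ ⟨w', hw'⟩
        exact ⟨w + w', fun j => by simp [hw, hw', add_mul, sum_add_distrib]⟩
      zero_mem' := ⟨0, by simp⟩
      neg_mem' := by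
        rintro s ⟨w, hw⟩
        exact ⟨-w, fun j => by simp [hw]⟩ }
  let f : ℕ → (Fin (n + 1) → ℤ) → Fin (n + 1 + 1) → ℕ := fun k q i =>
    (e k i ⬝ᵥ q - e k i ⬝ᵥ q0 k i).toNat
  have key : ∀ k (s : Fin (n + 1 + 1) → ℝ) (w : Fin (n + 1) → ℤ),
      (∀ j, (w j : ℝ) = ∑ i, s i * e k i j) → ∀ q ∈ (G k).g.coeff.support,
      ∑ j, (G k).ell j * w j - (w ⬝ᵥ q : ℤ) = ∑ i, s i - ∑ i, s i * f k q i := by
    intro k s w hw q hq
    have h4 : ∀ i, (f k q i : ℝ) = (e k i ⬝ᵥ q : ℤ) - (∑ j, (G k).ell j * e k i j - 1) := by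
      intro i
      rw [← hq0, ← Int.cast_natCast, Int.toNat_of_nonneg (sub_nonneg.2 (hq0' k i q hq)),
        Int.cast_sub]
    simp only [dot_rep hw, hw, h4, mul_sub, mul_sum, sum_sub_distrib, mul_one]
    rw [sum_comm]
    simp only [mul_left_comm]
    ring
  obtain ⟨j, k, hjk, s, ⟨w, hw⟩, hs, hlt⟩ := core N
    (fun k z => ⟨∑ i, z i • e k i, fun j => by simp [Finset.sum_apply]⟩)
    (fun k => (G k).g.coeff.support.image (f k)) l (fun k => ⟨ν k, hrep k⟩) hl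
    (fun k => μ (k + 1)) (fun k m hm => by
      obtain ⟨q, hq, rfl⟩ := mem_image.1 hm
      rw [← key k _ _ (hrep k) q hq]
      exact (hν3 k q hq).trans_lt (ha' k))
  obtain ⟨b, hb, hb'⟩ := (G k).step hn (e k) (he k) (l k) s (hl k) hs (ν k) w (hrep k) hw (hν2 k)
    (μ (j + 1)) ((h0 j).trans_lt (hμ (Nat.lt_succ_self j))) (h1 _).le fun q hq => by
      rw [key k s w hw q hq]
      exact hlt _ (mem_image_of_mem _ hq)
  exact absurd ((hG k).1 hb) (not_le.2 (hb'.trans_le (hμ.monotone hjk)))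

end Pool.Agent.Lib.MP_c5e1db_ag
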