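import Pool.Agent.Lib.MP_813db1_ag.Bound

/-!
Residue forms, adapted frames and Jacobian bounds for systems that are nondegenerate at a given
family of places only (adapted from the library of MP_813db1_ag).
-/

namespace Pool.Agent.Lib.MP_c5e1db_ag

open Module Finset Matrix Pool.Agent.Lib.MP_813db1_ag

/-- Valuative nondegeneracy at one place. -/
def NDat {k K M ι : Type} [Field k] [Field K] [Algebra k K] [AddCommGroup M] [Fintype ι]
    {Q : ι → Type} [∀ i, Fintype (Q i)] (e : ∀ i, Q i → M) (c : ∀ i, Q i → k)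
    (χ : AddChar M K) (P : Place k K) : Prop :=
  ∀ (q0 : ∀ i, Q i), (∀ i q, P.v (χ (e i q - e i (q0 i))) ≤ 1) →
    ∀ α : ι → P.κ, (∀ ψ : M →+ ℤ, ∑ i, α i * ∑ q, algebraMap k P.κ (c i q) *
      P.res (χ (e i q - e i (q0 i))) * (ψ (e i q - e i (q0 i)) : P.κ) = 0) → α = 0

/-- A system whose generic point generates `K` and is a smooth point. -/
structure Sy (k K : Type) [Field k] [Field K] [Algebra k K] (n : ℕ) (M : Type) [AddCommGroup M]
    (ι : Type) [Fintype ι] (Q : ι → Type) [∀ i, Fintype (Q i)] where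
  e : ∀ i, Q i → M
  c : ∀ i, Q i → k
  χ : AddChar M K
  gen : IntermediateField.adjoin k (Set.range χ) = ⊤
  rel : ∀ i, ∑ q, algebraMap k K (c i q) * χ (e i q) = 0
  nd : NDat e c χ (trivPlace k K)
  b : Basis (ι ⊕ Fin n) ℤ M
  D : Basis (Fin n) K (Derivation k K K)

namespace Sy

variable {k K : Type} [Field k] [Field K] [Algebra k K] {n : ℕ} {M : Type} [AddCommGroup M]
  {ι : Type} [Fintype ι] {Q : ι → Type} [∀ i, Fintype (Q i)] (S : Sy k K n M ι Q)

theorem der_eq_zero (D : Derivation k K K) (h : ∀ m, lg S.χ D m = 0) : D = 0 := by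
  ext x
  refine der_adjoin D (Set.range S.χ) ?_ x (by rw [S.gen]; trivial)
  rintro _ ⟨m, rfl⟩
  rw [der_chi, h, mul_zero]

theorem rel' (i : ι) (m : M) : ∑ q, algebraMap k K (S.c i q) * S.χ (S.e i q - m) = 0 := by
  simp only [sub_eq_add_neg, S.χ.map_add_eq_mul, ← mul_assoc, ← sum_mul, S.rel, zero_mul]

theorem rel_lg (D : Derivation k K K) (i : ι) :
    ∑ q, algebraMap k K (S.c i q) * S.χ (S.e i q) * lg S.χ D (S.e i q) = 0 := by
  have := congrArg D (S.rel i)
  rw [map_sum, map_zero] at this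
  rw [← this]
  refine sum_congr rfl fun q _ => ?_
  rw [← Algebra.smul_def, D.map_smul, der_chi, smul_mul_assoc]

/-- Logarithmic gradients. -/
noncomputable def Th : Matrix ι (ι ⊕ Fin n) K :=
  Matrix.of fun i x => ∑ q, algebraMap k K (S.c i q) * S.χ (S.e i q) * (S.b.repr (S.e i q) x : K)

/-- Coordinates of a family of exponents. -/
noncomputable def co (q : Fin n → M) : Matrix (Fin n) (ι ⊕ Fin n) K :=
  Matrix.of fun c x => (S.b.repr (q c) x : K)

/-- Normalised logarithmic gradients. -/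
noncomputable def Th' (q0 : ∀ i, Q i) : Matrix ι (ι ⊕ Fin n) K :=
  Matrix.of fun i x => ∑ q, algebraMap k K (S.c i q) * S.χ (S.e i q - S.e i (q0 i)) *
    (S.b.repr (S.e i q - S.e i (q0 i)) x : K)

/-- The frame matrix. -/
noncomputable def U (q0 : ∀ i, Q i) (q : Fin n → M) : Matrix (ι ⊕ Fin n) (ι ⊕ Fin n) K :=
  Matrix.fromRows (S.Th' q0) (S.co q)

theorem Th_eq (q0 : ∀ i, Q i) (i : ι) (x : ι ⊕ Fin n) :
    S.Th i x = S.χ (S.e i (q0 i)) * S.Th' q0 i x := by
  simp only [Th, Th', Matrix.of_apply, map_sub, Finsupp.sub_apply, Int.cast_sub, mul_sub,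
    sum_sub_distrib, ← sum_mul, S.rel', zero_mul, sub_zero, mul_sum]
  refine sum_congr rfl fun q _ => ?_
  have : S.χ (S.e i q) = S.χ (S.e i (q0 i)) * S.χ (S.e i q - S.e i (q0 i)) := by
    rw [← S.χ.map_add_eq_mul, add_sub_cancel]
  rw [this]; ring

theorem Th_mulVec (ψ : M →+ K) (i : ι) : (S.Th *ᵥ fun x => ψ (S.b x)) i =
    ∑ q, algebraMap k K (S.c i q) * S.χ (S.e i q) * ψ (S.e i q) := by
  simp only [Matrix.mulVec, dotProduct, Th, Matrix.of_apply, sum_mul]
  rw [sum_comm]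
  refine sum_congr rfl fun q _ => ?_
  rw [addHom_eq S.b ψ (S.e i q), mul_sum]
  refine sum_congr rfl fun x _ => ?_
  rw [zsmul_eq_mul]; ring

/-- Residues of the normalised gradients are independent. -/
theorem res_indep (P : Place k K) (hP : NDat S.e S.c S.χ P) (q0 : ∀ i, Q i)
    (h : ∀ i q, P.v (S.χ (S.e i q - S.e i (q0 i))) ≤ 1) :
    (∀ i x, P.v (S.Th' q0 i x) ≤ 1) ∧
      LinearIndependent P.κ (fun i x => P.res (S.Th' q0 i x)) := by
  have h1 : ∀ i q (z : ℤ), P.v (algebraMap k K (S.c i q) * S.χ (S.e i q - S.e i (q0 i)) *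
      (z : K)) ≤ 1 := fun i q z => by
    rw [map_mul, map_mul]
    exact mul_le_one' (mul_le_one' (P.hk _) (h i q)) (P.v_intCast _)
  refine ⟨fun i x => P.v.map_sum_le fun q _ => h1 i q _, ?_⟩
  rw [Fintype.linearIndependent_iff]
  intro α hα i
  refine congrFun (hP q0 h α fun ψ => ?_) i
  have h2 : ∀ i x, P.res (S.Th' q0 i x) = ∑ q, algebraMap k P.κ (S.c i q) *
      P.res (S.χ (S.e i q - S.e i (q0 i))) * (S.b.repr (S.e i q - S.e i (q0 i)) x : P.κ) := by
    intro i x
    simp only [Th', Matrix.of_apply]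
    rw [P.res_sum _ _ fun q _ => h1 i q _]
    refine sum_congr rfl fun q _ => ?_
    rw [P.res_mul _ (P.v_intCast _), P.res_mul (P.hk _) (h i q), P.res_algebraMap,
      P.res_intCast]
    rw [map_mul]; exact mul_le_one' (P.hk _) (h i q)
  have h3 : ∀ x, ∑ i, α i * P.res (S.Th' q0 i x) = 0 := fun x => by
    simpa using congrFun hα x
  calc _ = ∑ x, (∑ i, α i * P.res (S.Th' q0 i x)) * (ψ (S.b x) : P.κ) := by
        simp only [h2, sum_mul, mul_sum]
        rw [sum_comm]
        refine sum_congr rfl fun i _ => ?_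
        rw [sum_comm]
        refine sum_congr rfl fun q _ => ?_
        rw [addHom_eq S.b ψ (S.e i q - S.e i (q0 i))]
        simp only [smul_eq_mul, Int.cast_sum, Int.cast_mul, mul_sum]
        refine sum_congr rfl fun x _ => ?_
        ring
    _ = 0 := by simp [h3]

variable [DecidableEq ι] [∀ i, Nonempty (Q i)]

theorem exists_eta : ∃ η : Matrix (ι ⊕ Fin n) ι K, S.Th * η = 1 := by
  classical
  let q0 : ∀ i, Q i := fun i => Classical.arbitrary _
  have h := (S.res_indep (trivPlace k K) S.nd q0 fun _ _ => Valuation.one_apply_le_one _).2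
  have hres : ∀ x, (trivPlace k K).res x = x := fun x =>
    (trivPlace k K).res_eq (Valuation.one_apply_le_one _)
  have h' : LinearIndependent K (fun i x => S.Th' q0 i x) := by
    have e : (fun i x => (trivPlace k K).res (S.Th' q0 i x)) = fun i x => S.Th' q0 i x := by
      funext i x; exact hres _
    rw [e] at h
    exact h
  have hinj : LinearMap.ker S.Th.vecMulLinear = ⊥ := by
    rw [LinearMap.ker_eq_bot']
    intro α hα
    rw [Fintype.linearIndependent_iff] at h'
    funext i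
    have := h' (fun i => α i * S.χ (S.e i (q0 i))) (by
      funext x
      have := congrFun hα x
      simp only [Matrix.vecMulLinear_apply, Matrix.vecMul, dotProduct, S.Th_eq q0] at this
      simpa [mul_assoc] using this) i
    exact (mul_eq_zero.1 this).resolve_right (chi_ne _ _)
  obtain ⟨g, hg⟩ := LinearMap.exists_leftInverse_of_injective _ hinj
  refine ⟨(LinearMap.toMatrix' g)ᵀ, ?_⟩
  ext i i'
  have := congrFun (LinearMap.congr_fun hg (Pi.single i 1)) i'
  rw [LinearMap.comp_apply, ← Matrix.toLin'_toMatrix' g, Matrix.toLin'_apply] at this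
  simp only [Matrix.vecMulLinear_apply, Matrix.single_one_vecMul, LinearMap.id_apply] at this
  rw [Matrix.one_apply, Pi.single_apply] at *
  simp only [eq_comm (a := i')] at this
  rw [← this]
  simp only [Matrix.mul_apply, Matrix.mulVec, dotProduct, Matrix.transpose_apply, mul_comm]
  rfl

/-- Logarithmic derivatives of the basis. -/
noncomputable def La : Matrix (ι ⊕ Fin n) (Fin n) K :=
  Matrix.of fun x a => lg S.χ (S.D a) (S.b x)

omit [DecidableEq ι] [∀ i, Nonempty (Q i)] in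
theorem La_mulVec (y : Fin n → K) :
    S.La *ᵥ y = fun x => lg S.χ (∑ a, y a • S.D a) (S.b x) := by
  funext x
  simp only [La, Matrix.mulVec, dotProduct, Matrix.of_apply, lg, AddMonoidHom.mk'_apply,
    der_sum_apply, mul_sum]
  refine sum_congr rfl fun a _ => ?_
  ring

omit [DecidableEq ι] [∀ i, Nonempty (Q i)] in
theorem Th_La : S.Th * S.La = 0 := by
  ext i a
  exact (S.Th_mulVec (lg S.χ (S.D a)) i).trans (S.rel_lg _ i)

theorem main_alg : (∃ h0 : K, h0 ≠ 0 ∧ ∀ (q0 : ∀ i, Q i) (q : Fin n → M),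
      (Matrix.of fun a c => lg S.χ (S.D a) (q c)).det =
        h0 * (∏ i, S.χ (S.e i (q0 i))) * (S.U q0 q).det) ∧
    ∀ ψ : M →+ K, (∀ i, ∑ q, algebraMap k K (S.c i q) * S.χ (S.e i q) * ψ (S.e i q) = 0) →
      ∃ D : Derivation k K K, ∀ m, lg S.χ D m = ψ m := by
  obtain ⟨η, hη⟩ := S.exists_eta
  let P : Matrix (ι ⊕ Fin n) (ι ⊕ Fin n) K := Matrix.fromCols η S.La
  have hP : ∀ w : ι ⊕ Fin n → K, S.Th *ᵥ (P *ᵥ w) = w ∘ Sum.inl := by
    intro w
    rw [Matrix.fromCols_mulVec, Matrix.mulVec_add, Matrix.mulVec_mulVec, Matrix.mulVec_mulVec,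
      hη, S.Th_La, Matrix.one_mulVec, Matrix.zero_mulVec, add_zero]
  have hdet : P.det ≠ 0 := by
    intro h
    obtain ⟨w, hw0, hw⟩ := Matrix.exists_mulVec_eq_zero_iff.2 h
    have h1 := hP w
    rw [hw, Matrix.mulVec_zero] at h1
    rw [Matrix.fromCols_mulVec, ← h1, Matrix.mulVec_zero, zero_add, S.La_mulVec] at hw
    have h2 : ∑ a, (w ∘ Sum.inr) a • S.D a = 0 := by
      apply S.der_eq_zero
      intro m
      rw [addHom_eq S.b]
      exact sum_eq_zero fun x _ => by rw [congrFun hw x]; simp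
    have h3 := Fintype.linearIndependent_iff.1 S.D.linearIndependent _ h2
    apply hw0
    funext x
    rcases x with i | a
    · exact (congrFun h1 i).symm
    · exact h3 a
  refine ⟨⟨P.det, hdet, fun q0 q => ?_⟩, fun ψ hψ => ?_⟩
  · have h1 : Matrix.fromRows S.Th (S.co q) * P =
        Matrix.fromBlocks 1 0 (S.co q * η) (S.co q * S.La) := by
      rw [Matrix.fromRows_mul_fromCols, hη, S.Th_La]
    have h2 := congrArg Matrix.det h1
    rw [Matrix.det_mul, Matrix.det_fromBlocks_zero₁₂, Matrix.det_one, one_mul] at h2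
    have h3 : S.co q * S.La = (Matrix.of fun a c => lg S.χ (S.D a) (q c))ᵀ := by
      ext c a
      simp only [Matrix.mul_apply, co, La, Matrix.of_apply, Matrix.transpose_apply]
      rw [addHom_eq S.b (lg S.χ (S.D a)) (q c)]
      simp only [zsmul_eq_mul]
    have h4 : Matrix.fromRows S.Th (S.co q) =
        Matrix.diagonal (Sum.elim (fun i => S.χ (S.e i (q0 i))) (fun _ => 1)) * S.U q0 q := by
      ext x y
      rw [Matrix.diagonal_mul]
      rcases x with i | c
      · exact S.Th_eq q0 i y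
      · simp [U]
    rw [h3, Matrix.det_transpose, h4, Matrix.det_mul, Matrix.det_diagonal,
      Fintype.prod_sum_type] at h2
    rw [← h2]
    simp only [Sum.elim_inl, Sum.elim_inr, prod_const_one]
    ring
  · have hu : IsUnit P := (Matrix.isUnit_iff_isUnit_det P).2 (Ne.isUnit hdet)
    obtain ⟨w, hw⟩ := Matrix.mulVec_surjective_iff_isUnit.2 hu (fun x => ψ (S.b x))
    have h1 := hP w
    have h0 : S.Th *ᵥ (fun x => ψ (S.b x)) = 0 := by
      funext i; rw [S.Th_mulVec]; exact hψ i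
    rw [hw, h0] at h1
    rw [Matrix.fromCols_mulVec, ← h1, Matrix.mulVec_zero, zero_add, S.La_mulVec] at hw
    refine ⟨∑ a, (w ∘ Sum.inr) a • S.D a, fun m => ?_⟩
    rw [addHom_eq S.b, addHom_eq S.b ψ]
    exact sum_congr rfl fun x _ => by rw [congrFun hw x]

omit [DecidableEq ι] [∀ i, Nonempty (Q i)] in
theorem res_Th' (P : Place k K) (q0 : ∀ i, Q i)
    (h : ∀ i q, P.v (S.χ (S.e i q - S.e i (q0 i))) ≤ 1) (ψ : M →+ ℤ) (i : ι) :
    ∑ x, P.res (S.Th' q0 i x) * (ψ (S.b x) : P.κ) = ∑ q, algebraMap k P.κ (S.c i q) *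
      P.res (S.χ (S.e i q - S.e i (q0 i))) * (ψ (S.e i q - S.e i (q0 i)) : P.κ) := by
  have h1 : ∀ q (z : ℤ), P.v (algebraMap k K (S.c i q) * S.χ (S.e i q - S.e i (q0 i)) *
      (z : K)) ≤ 1 := fun q z => by
    rw [map_mul, map_mul]
    exact mul_le_one' (mul_le_one' (P.hk _) (h i q)) (P.v_intCast _)
  have h2 : ∀ x, P.res (S.Th' q0 i x) = ∑ q, algebraMap k P.κ (S.c i q) *
      P.res (S.χ (S.e i q - S.e i (q0 i))) * (S.b.repr (S.e i q - S.e i (q0 i)) x : P.κ) := by
    intro x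
    simp only [Th', Matrix.of_apply]
    rw [P.res_sum _ _ fun q _ => h1 q _]
    refine sum_congr rfl fun q _ => ?_
    rw [P.res_mul _ (P.v_intCast _), P.res_mul (P.hk _) (h i q), P.res_algebraMap,
      P.res_intCast]
    rw [map_mul]; exact mul_le_one' (P.hk _) (h i q)
  simp only [h2, sum_mul]
  rw [sum_comm]
  refine sum_congr rfl fun q _ => ?_
  rw [addHom_eq S.b ψ (S.e i q - S.e i (q0 i))]
  simp only [smul_eq_mul, Int.cast_sum, Int.cast_mul, mul_sum]
  refine sum_congr rfl fun x _ => ?_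
  ring

omit [∀ i, Nonempty (Q i)] in
theorem frame [CharZero k] (P : Place k K) (hP : NDat S.e S.c S.χ P) (A : Adapt (P.nu S.χ)) (q0 : ∀ i, Q i)
    (h : ∀ i q, P.v (S.χ (S.e i q - S.e i (q0 i))) ≤ 1) :
    ∃ q : Fin n → M, (∀ c, A.ν' (q c) = 0 ∨ q c = A.qs) ∧ Function.Injective q ∧
      P.v (S.U q0 q).det = 1 ∧ (0 < A.a → ∃ c, q c = A.qs) := by
  obtain ⟨hle, hli⟩ := S.res_indep P hP q0 h
  let g : {m // A.ν' m = 0 ∨ m = A.qs} → (ι ⊕ Fin n → P.κ) :=
    fun m x => (S.b.repr m.1 x : P.κ)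
  have hg : Submodule.span P.κ (Set.range g) = ⊤ := by
    rw [eq_top_iff, ← (Pi.basisFun P.κ (ι ⊕ Fin n)).span_eq, Submodule.span_le]
    rintro _ ⟨x, rfl⟩
    have : Pi.basisFun P.κ (ι ⊕ Fin n) x = g ⟨A.p (S.b x), Or.inl (A.nu_p _)⟩ +
        (A.ν' (S.b x) : P.κ) • g ⟨A.qs, Or.inr rfl⟩ := by
      funext y
      simp only [g, A.p_apply, map_sub, map_zsmul, Pi.basisFun_apply, Pi.add_apply,
        Pi.smul_apply, Finsupp.sub_apply, Finsupp.smul_apply, smul_eq_mul, Basis.repr_self,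
        Finsupp.single_apply, Pi.single_apply, eq_comm (a := y)]
      push_cast
      ring
    rw [this]
    exact Submodule.add_mem _ (Submodule.subset_span ⟨_, rfl⟩)
      (Submodule.smul_mem _ _ (Submodule.subset_span ⟨_, rfl⟩))
  obtain ⟨f, hf⟩ := exists_extend (n := n) _ hli g hg (by simp)
  have hU : ∀ x y, P.v (S.U q0 (fun c => (f c).1) x y) ≤ 1 := by
    rintro (i | c) y
    · exact hle i y
    · exact P.v_intCast _
  have hrow : (S.U q0 (fun c => (f c).1)).map P.res =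
      Sum.elim (fun i x => P.res (S.Th' q0 i x)) (g ∘ f) := by
    ext x y
    rcases x with i | c
    · rfl
    · exact P.res_intCast _
  have hunit : IsUnit ((S.U q0 (fun c => (f c).1)).map P.res) := by
    rw [← Matrix.linearIndependent_rows_iff_isUnit]
    rw [← hrow] at hf
    exact hf
  obtain ⟨hd1, hd2⟩ := P.det_lift _ hU
  refine ⟨fun c => (f c).1, fun c => (f c).2, ?_, ?_, fun ha => ?_⟩
  · intro c c' hc
    have : (Sum.inr c : ι ⊕ Fin n) = Sum.inr c' := hf.injective (by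
      funext x; simp only [Sum.elim_inr, Function.comp, g]; rw [show (f c).1 = (f c').1 from hc])
    exact Sum.inr_injective this
  · refine le_antisymm hd1 (not_lt.1 fun hlt => ?_)
    rw [← P.res_eq_zero hd1, hd2] at hlt
    exact ((Matrix.isUnit_iff_isUnit_det _).1 hunit).ne_zero hlt
  · by_contra hne
    push Not at hne
    have : CharZero P.κ := charZero_of_injective_algebraMap (algebraMap k P.κ).injective
    have h1 : A.ν' A.qs = 1 := by
      rcases A.alt with ⟨-, -, h⟩ | ⟨h, -⟩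
      · omega
      · exact h
    have hw : (S.U q0 (fun c => (f c).1)).map P.res *ᵥ (fun x => (A.ν' (S.b x) : P.κ)) =
        (S.U q0 (fun c => (f c).1)).map P.res *ᵥ 0 := by
      rw [Matrix.mulVec_zero, hrow]
      funext x
      rcases x with i | c
      · refine (S.res_Th' P q0 h A.ν' i).trans (sum_eq_zero fun q _ => ?_)
        by_cases h0 : A.ν' (S.e i q - S.e i (q0 i)) = 0
        · rw [h0]; simp
        · have h2 := A.nonneg ((P.v_chi_le_one _ _).1 (h i q))
          have h3 : 0 < P.nu S.χ (S.e i q - S.e i (q0 i)) := by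
            rw [A.eq]; exact mul_pos ha (lt_of_le_of_ne h2 (Ne.symm h0))
          rw [(P.res_eq_zero (h i q)).2 ((P.v_chi_lt_one _ _).2 h3)]; simp
      · have h2 := ((f c).2).resolve_right (hne c)
        rw [addHom_eq S.b] at h2
        have h3 := congrArg (Int.cast : ℤ → P.κ) h2
        simpa [Matrix.mulVec, dotProduct, g] using h3
    have h4 := Matrix.mulVec_injective_iff_isUnit.2 hunit hw
    rw [addHom_eq S.b] at h1
    rw [sum_eq_zero fun x _ => by
      rw [show A.ν' (S.b x) = 0 from by simpa using congrFun h4 x, smul_zero]] at h1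
    exact zero_ne_one h1

omit [DecidableEq ι] in
theorem exists_q0 (P : Place k K) : ∃ q0 : ∀ i, Q i,
    (∀ i q, P.v (S.χ (S.e i q - S.e i (q0 i))) ≤ 1) ∧
      P.v (∏ i, S.χ (S.e i (q0 i))) = WithZero.exp (- phi S.e (P.nu S.χ)) := by
  choose q0 hq0 using exists_mn S.e (P.nu S.χ)
  refine ⟨q0, fun i q => ?_, ?_⟩
  · rw [P.v_chi_le_one, map_sub, hq0]
    have := mn_le S.e (P.nu S.χ) i q
    omega
  · rw [← chi_sum S.χ, P.v_chi, map_sum]
    simp only [hq0, phi]

omit [∀ i, Nonempty (Q i)] in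
theorem unr (P : Place k K) (A : Adapt (P.nu S.χ)) (q0 : ∀ i, Q i)
    (h : ∀ i q, P.v (S.χ (S.e i q - S.e i (q0 i))) ≤ 1) (q : Fin n → M)
    (hq1 : ∀ c, A.ν' (q c) = 0 ∨ q c = A.qs) (hq2 : P.v (S.U q0 q).det = 1)
    (hq3 : 0 < A.a → ∃ c, q c = A.qs) (B : Subalgebra k K) (hB : ∀ m, S.χ (A.p m) ∈ B)
    (hBt : S.χ A.qs ∈ B) (hz : ∀ c, S.χ (q c) ∈ B)
    (N : Type) [AddCommGroup N] [Module (loc P.v B) N] [Module k N]
    [IsScalarTower k (loc P.v B) N] (D : Derivation k (loc P.v B) N)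
    (hD : ∀ c, D ⟨S.χ (q c), le_loc _ _ (hz c)⟩ = 0) :
    (∀ m, D ⟨S.χ (A.p m), le_loc _ _ (hB m)⟩ = 0) ∧ D ⟨S.χ A.qs, le_loc _ _ hBt⟩ = 0 := by
  let ξ : M → loc P.v B := fun m => ⟨S.χ (A.p m), le_loc _ _ (hB m)⟩
  let t : loc P.v B := ⟨S.χ A.qs, le_loc _ _ hBt⟩
  have hξ : ∀ x y, ξ (x + y) = ξ x * ξ y := fun x y => by
    ext; simp [ξ, S.χ.map_add_eq_mul]
  have hξ0 : ξ 0 = 1 := by ext; simp [ξ]
  have hξ1 : ∀ x, ξ x * ξ (-x) = 1 := fun x => by rw [← hξ, add_neg_cancel, hξ0]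
  have ht : D t = 0 := by
    rcases A.alt with ⟨-, h1, -⟩ | ⟨-, h1⟩
    · have : t = 1 := by ext; simp [t, h1]
      rw [this, D.map_one_eq_zero]
    · obtain ⟨c, hc⟩ := hq3 h1
      have : t = ⟨S.χ (q c), le_loc _ _ (hz c)⟩ := by ext; simp [t, hc]
      rw [this, hD]
  let ψ : M →+ N := AddMonoidHom.mk' (fun m => ξ (-m) • D (ξ m)) (fun x y => by
    rw [hξ, D.leibniz, neg_add, hξ, smul_add, smul_smul, smul_smul, add_comm]
    congr 2
    · rw [mul_assoc, mul_comm (ξ (-y)), hξ1, mul_one]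
    · rw [mul_right_comm, mul_comm (ξ (-x)), hξ1, one_mul])
  have hψ : ∀ m, D (ξ m) = ξ m • ψ m := fun m => by
    simp only [ψ, AddMonoidHom.mk'_apply, smul_smul, hξ1, one_smul]
  let e' : ∀ i, Q i → M := fun i q => S.e i q - S.e i (q0 i)
  let T : ∀ i, Q i → loc P.v B := fun i q => ξ (e' i q) * t ^ (A.ν' (e' i q)).toNat
  have hT : ∀ i q, (T i q : K) = S.χ (e' i q) := fun i q => by
    rw [A.chi_eq S.χ (m := e' i q) (A.nonneg ((P.v_chi_le_one _ _).1 (h i q)))]
    simp only [T, ξ, t, Subalgebra.coe_mul, Subalgebra.coe_pow]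
  have hDT : ∀ i q, D (T i q) = T i q • ψ (e' i q) := fun i q => by
    simp only [T, D.leibniz, D.leibniz_pow, ht, smul_zero, zero_add, hψ, smul_smul, mul_comm]
  let U' : Matrix (ι ⊕ Fin n) (ι ⊕ Fin n) (loc P.v B) := Matrix.fromRows
    (Matrix.of fun i x => ∑ q, S.c i q • T i q * (S.b.repr (e' i q) x : loc P.v B))
    (Matrix.of fun c x => (S.b.repr (q c) x : loc P.v B))
  have hU' : (loc P.v B).val.mapMatrix U' = S.U q0 q := by
    ext x y
    rcases x with i | c
    · simp only [U', U, Th', AlgHom.mapMatrix_apply, Matrix.map_apply, Matrix.fromRows_apply_inl,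
        Matrix.of_apply]
      rw [map_sum]
      refine sum_congr rfl fun q _ => ?_
      rw [map_mul, map_smul, map_intCast, Algebra.smul_def]
      congr 2
      exact hT i q
    · simp [U', U, co]
  have hdet : IsUnit U'.det := by
    apply isUnit_loc
    have := (loc P.v B).val.map_det U'
    rw [hU'] at this
    rw [← hq2, ← this]; rfl
  have hb : ∀ x, ψ (S.b x) = 0 := by
    apply cramer_zero U' hdet
    rintro (i | c)
    · have h1 : ∑ q, S.c i q • T i q = 0 := by
        apply Subtype.val_injective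
        change (loc P.v B).val _ = 0
        rw [map_sum, ← S.rel' i (S.e i (q0 i))]
        refine sum_congr rfl fun q _ => ?_
        rw [map_smul, Algebra.smul_def]
        congr 1
        exact hT i q
      have h2 := congrArg D h1
      rw [map_sum, map_zero] at h2
      rw [← h2]
      simp only [U', Matrix.fromRows_apply_inl, Matrix.of_apply, sum_smul]
      rw [sum_comm]
      refine sum_congr rfl fun q _ => ?_
      rw [D.map_smul, hDT, addHom_eq S.b ψ (e' i q), smul_sum, smul_sum]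
      refine sum_congr rfl fun x _ => ?_
      rw [mul_smul, smul_assoc, Int.cast_smul_eq_zsmul]
    · have h1 : ψ (q c) = 0 := by
        have : D (ξ (q c)) = 0 := by
          rcases hq1 c with h1 | h1
          · have : ξ (q c) = ⟨S.χ (q c), le_loc _ _ (hz c)⟩ := by
              ext; simp [ξ, A.p_of _ h1]
            rw [this, hD]
          · have : ξ (q c) = 1 := by ext; simp [ξ, h1, A.p_qs]
            rw [this, D.map_one_eq_zero]
        simp only [ψ, AddMonoidHom.mk'_apply, this, smul_zero]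
      rw [addHom_eq S.b] at h1
      rw [← h1]
      simp only [U', Matrix.fromRows_apply_inr, Matrix.of_apply, Int.cast_smul_eq_zsmul]
  refine ⟨fun m => ?_, ht⟩
  have := hψ m
  rw [addHom_eq S.b ψ m, sum_eq_zero fun x _ => by rw [hb, smul_zero], smul_zero] at this
  exact this

theorem local_bound [CharZero k] (hn : 0 < n) (h0 : K) (hh0 : h0 ≠ 0)
    (hdet : ∀ (q0 : ∀ i, Q i) (q : Fin n → M), (Matrix.of fun a c => lg S.χ (S.D a) (q c)).det =
      h0 * (∏ i, S.χ (S.e i (q0 i))) * (S.U q0 q).det)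
    (P : Place k K) (hP : NDat S.e S.c S.χ P) (A : Adapt (P.nu S.χ)) (x : Fin (n - 1) → P.κ)
    (hx : AlgebraicIndependent k x)
    (hxm : ∀ b, x b ∈ IntermediateField.adjoin k (Set.range fun m => P.res (S.χ (A.p m))))
    (y : Fin n → K) (hy : ∀ c, P.v (y c) ≤ 1) :
    P.v (jac S.D y) ≤ P.v h0 * WithZero.exp (- (phi S.e (P.nu S.χ) + A.a)) := by
  classical
  obtain ⟨q0, hq0, hphi⟩ := S.exists_q0 P
  obtain ⟨q, hq1, hq2, hq3, hq4⟩ := S.frame P hP A q0 hq0
  let G : Finset K := insert (S.χ A.qs) ((univ.image fun x => S.χ (A.p (S.b x))) ∪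
    (univ.image fun x => S.χ (A.p (- S.b x))))
  let B := Algebra.adjoin k (G : Set K)
  have hp : ∀ m, P.nu S.χ (A.p m) = 0 := fun m => by rw [A.eq, A.nu_p, mul_zero]
  have hG : ∀ g ∈ G, P.v g ≤ 1 := by
    intro g hg
    simp only [G, mem_insert, mem_union, mem_image, mem_univ, true_and] at hg
    rcases hg with rfl | ⟨x, rfl⟩ | ⟨x, rfl⟩
    · rw [P.v_chi_le_one, A.nu_qs]; exact A.a_nonneg
    · rw [P.v_chi_le_one, hp]
    · rw [P.v_chi_le_one, hp]
  have hBt : S.χ A.qs ∈ B := Algebra.subset_adjoin (by simp [G])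
  have hB : ∀ m, S.χ (A.p m) ∈ B := by
    let T : AddSubgroup M :=
      { carrier := {m | S.χ (A.p m) ∈ B ∧ S.χ (A.p (-m)) ∈ B}
        add_mem' := fun {a b} ha hb => by
          simp only [Set.mem_ofPred_eq, neg_add, map_add, S.χ.map_add_eq_mul] at *
          exact ⟨B.mul_mem ha.1 hb.1, B.mul_mem ha.2 hb.2⟩
        zero_mem' := by simp
        neg_mem' := fun {a} ha => ⟨ha.2, by rw [neg_neg]; exact ha.1⟩ }
    intro m
    have : m ∈ T := by
      rw [← S.b.sum_repr m]
      refine T.sum_mem fun x _ => T.zsmul_mem ⟨?_, ?_⟩ _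
      · exact Algebra.subset_adjoin (by simp [G])
      · exact Algebra.subset_adjoin (by simp only [G]; simp [-map_neg])
    exact this.1
  have hz : ∀ c, S.χ (q c) ∈ B := fun c => by
    rcases hq1 c with h | h
    · rw [← A.p_of _ h]; exact hB _
    · rw [h]; exact hBt
  have hBR : B ≤ Rv P.v P.hk := Algebra.adjoin_le fun g hg => hG g hg
  have hgen : IntermediateField.adjoin k (G : Set K) = ⊤ := by
    rw [eq_top_iff, ← S.gen, IntermediateField.adjoin_le_iff]
    rintro _ ⟨m, rfl⟩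
    have e1 : S.χ m = S.χ (A.p m) * S.χ A.qs ^ A.ν' m := by
      rw [← S.χ.map_zsmul_eq_zpow, ← S.χ.map_add_eq_mul, A.p_apply, sub_add_cancel]
    rw [e1]
    have m1 : S.χ (A.p m) ∈ IntermediateField.adjoin k (G : Set K) :=
      IntermediateField.algebra_adjoin_le_adjoin k _ (hB m)
    have m2 : S.χ A.qs ∈ IntermediateField.adjoin k (G : Set K) :=
      IntermediateField.algebra_adjoin_le_adjoin k _ hBt
    exact mul_mem m1 (zpow_mem m2 _)
  have hzv : ∀ c, P.v (S.χ (q c)) ≤ 1 := fun c => hBR (hz c)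
  obtain ⟨c0, hc0⟩ := exists_indep_compl hn x hx (fun c => P.res (S.χ (q c))) (by
    intro D hD b
    let ρ' : loc P.v B →ₐ[k] P.κ := P.ρ.comp (Subalgebra.inclusion (loc_le P.v P.hk B hBR))
    let _ : Algebra (loc P.v B) P.κ := ρ'.toRingHom.toAlgebra
    have : IsScalarTower k (loc P.v B) P.κ :=
      IsScalarTower.of_algebraMap_eq fun c => (ρ'.commutes c).symm
    have hρ : ∀ y : loc P.v B, algebraMap (loc P.v B) P.κ y = P.res y := fun y =>
      (P.res_eq (loc_le P.v P.hk B hBR y.2)).symm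
    have h1 := (S.unr P A q0 hq0 q hq1 hq3 hq4 B hB hBt hz P.κ (D.compAlgebraMap (loc P.v B))
      (fun c => by
        change D (algebraMap (loc P.v B) P.κ _) = 0
        rw [hρ]; exact hD c)).1
    refine der_adjoin D _ ?_ _ (hxm b)
    rintro _ ⟨m, rfl⟩
    have h2 := h1 m
    change D (algebraMap (loc P.v B) P.κ _) = 0 at h2
    rw [hρ] at h2
    exact h2)
  have hU := lemmaU P.v P.hk G hG hgen (fun c => S.χ (q c)) hz c0 (fun p hp => by
      obtain ⟨h1, h2⟩ := P.res_aeval (fun c : {c // c ≠ c0} => S.χ (q c.1)) (fun c => hzv c.1) p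
      refine le_antisymm h1 (not_lt.1 fun hlt => hp ?_)
      rw [← P.res_eq_zero h1, h2] at hlt
      exact hc0.eq_zero_of_aeval_eq_zero p hlt)
    (fun N _ _ _ _ D hD g hg => by
      obtain ⟨h1, h2⟩ := S.unr P A q0 hq0 q hq1 hq3 hq4 B hB hBt hz N D hD
      simp only [G, mem_insert, mem_union, mem_image, mem_univ, true_and] at hg
      rcases hg with rfl | ⟨x, rfl⟩ | ⟨x, rfl⟩
      · exact h2
      · exact h1 _
      · exact h1 _)
  have hj : P.v (jac S.D fun c => S.χ (q c)) = WithZero.exp (- ∑ c, P.nu S.χ (q c)) *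
      (P.v h0 * WithZero.exp (- phi S.e (P.nu S.χ))) := by
    rw [jac_chi, hdet q0 q, map_mul, map_mul, map_mul, hq3, hphi, mul_one,
      ← chi_sum S.χ, P.v_chi, map_sum]
  let Jz : Matrix (Fin n) (Fin n) K := Matrix.of fun a c => S.D a (S.χ (q c))
  have hJ : IsUnit Jz.det := by
    apply Ne.isUnit
    intro h
    change jac S.D (fun c => S.χ (q c)) = 0 at h
    rw [h, map_zero] at hj
    exact mul_ne_zero WithZero.exp_ne_zero
      (mul_ne_zero ((Valuation.ne_zero_iff _).2 hh0) WithZero.exp_ne_zero) hj.symm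
  let D' : Fin n → Derivation k K K := fun c => ∑ a, Jz⁻¹ c a • S.D a
  have hD' : ∀ y : Fin n → K, (Matrix.of fun a c => D' a (y c)) =
      Jz⁻¹ * Matrix.of fun a c => S.D a (y c) := fun y => by
    ext a c
    simp only [D', Matrix.of_apply, der_sum_apply, Matrix.mul_apply]
  have h1 : ∀ a c, P.v (D' a (S.χ (q c))) ≤ 1 := fun a c => by
    have := congrFun (congrFun (hD' fun c => S.χ (q c)) a) c
    rw [Matrix.of_apply, Matrix.nonsing_inv_mul _ hJ, Matrix.one_apply] at this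
    rw [this]
    split_ifs <;> simp
  have h2 : jac S.D y = jac S.D (fun c => S.χ (q c)) * (Matrix.of fun a c => D' a (y c)).det := by
    rw [hD', Matrix.det_mul, ← mul_assoc]
    change _ = Jz.det * Jz⁻¹.det * jac S.D y
    rw [Matrix.det_nonsing_inv, Ring.mul_inverse_cancel _ hJ, one_mul]
  rw [h2, map_mul, hj]
  refine (mul_le_of_le_one_right' (v_det_le P _ fun a c => hU _ (h1 a) _ (hy c))).trans ?_
  rw [mul_left_comm, ← WithZero.exp_add]
  apply mul_le_mul_right
  rw [WithZero.exp_le_exp]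
  have h3 : ∀ c, 0 ≤ P.nu S.χ (q c) := fun c => (P.v_chi_le_one _ _).1 (hzv c)
  have h4 : A.a ≤ ∑ c, P.nu S.χ (q c) := by
    rcases A.a_nonneg.lt_or_eq with h | h
    · obtain ⟨c, hc⟩ := hq4 h
      rw [← A.nu_qs, ← hc]
      exact single_le_sum (fun c _ => h3 c) (mem_univ c)
    · rw [← h]; exact sum_nonneg fun c _ => h3 c
  linarith

theorem lower [CharZero k] (h0 : K)
    (hdet : ∀ (q0 : ∀ i, Q i) (q : Fin n → M), (Matrix.of fun a c => lg S.χ (S.D a) (q c)).det =
      h0 * (∏ i, S.χ (S.e i (q0 i))) * (S.U q0 q).det)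
    (P : Place k K) (hP : NDat S.e S.c S.χ P) (hv : Function.Surjective P.v) :
    ∃ b : Fin n → K, (∀ c, P.v (b c) ≤ 1) ∧ ((P.nu S.χ = 0 ∧ P.v h0 ≤ P.v (jac S.D b)) ∨
      (P.nu S.χ ≠ 0 ∧ WithZero.exp (-1) * (P.v h0 * WithZero.exp (- phi S.e (P.nu S.χ)))
        ≤ P.v (jac S.D b))) := by
  obtain ⟨A⟩ := exists_adapt (P.nu S.χ)
  obtain ⟨q0, hq0, hphi⟩ := S.exists_q0 P
  obtain ⟨q, hq1, hq2, hq3, hq4⟩ := S.frame P hP A q0 hq0
  have hj : P.v (jac S.D fun c => S.χ (q c)) = WithZero.exp (- ∑ c, P.nu S.χ (q c)) *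
      (P.v h0 * WithZero.exp (- phi S.e (P.nu S.χ))) := by
    rw [jac_chi, hdet q0 q, map_mul, map_mul, map_mul, hq3, hphi, mul_one,
      ← chi_sum S.χ, P.v_chi, map_sum]
  have hz : ∀ c, P.v (S.χ (q c)) ≤ 1 := fun c => by
    rw [P.v_chi_le_one]
    rcases hq1 c with h | h
    · rw [A.eq, h, mul_zero]
    · rw [h, A.nu_qs]; exact A.a_nonneg
  rcases A.alt with ⟨-, -, ha⟩ | ⟨h1, ha⟩
  · have hν : ∀ m, P.nu S.χ m = 0 := fun m => by rw [A.eq, ha, zero_mul]
    have hp : phi S.e (P.nu S.χ) = 0 := by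
      rw [phi_mul S.e le_rfl (ν' := 0) (fun m => by simp [hν]), zero_mul]
    refine ⟨fun c => S.χ (q c), hz, Or.inl ⟨AddMonoidHom.ext hν, ?_⟩⟩
    rw [hj]
    simp [hν, hp]
  · obtain ⟨cs, hcs⟩ := hq4 ha
    obtain ⟨π, hπ⟩ := hv (WithZero.exp (-1))
    have hπ0 : π ≠ 0 := by
      rintro rfl
      rw [map_zero] at hπ
      exact WithZero.exp_ne_zero hπ.symm
    obtain ⟨a', ha'⟩ : ∃ a' : ℕ, A.a = a' + 1 := ⟨(A.a - 1).toNat, by omega⟩
    set w := S.χ A.qs / π ^ (a' + 1) with hw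
    have hpw : ∀ j : ℕ, P.v π ^ j = WithZero.exp (- (j : ℤ)) := fun j => by
      rw [hπ, ← WithZero.exp_nsmul]; simp
    have hvw : P.v w = 1 := by
      rw [hw, map_div₀, map_pow, hpw, P.v_chi, A.nu_qs, ha']
      exact div_self WithZero.exp_ne_zero
    have hsum : ∑ c, P.nu S.χ (q c) = a' + 1 := by
      rw [Fintype.sum_eq_single cs, hcs, A.nu_qs, ha']
      intro c hc
      rcases hq1 c with h | h
      · rw [A.eq, h, mul_zero]
      · exact absurd (hq2 (h.trans hcs.symm)) hc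
    have hsplit : jac S.D (fun c => S.χ (q c)) =
        (((a' + 1 : ℕ) : K) * π ^ a' * w) * jac S.D (Function.update (fun c => S.χ (q c)) cs π) +
          π ^ (a' + 1) * jac S.D (Function.update (fun c => S.χ (q c)) cs w) := by
      have e1 : S.χ A.qs = π ^ (a' + 1) * w := by rw [hw]; field_simp
      conv_lhs => rw [← Function.update_eq_self cs (fun c => S.χ (q c))]
      rw [jac_update, jac_update, jac_update, ← Matrix.det_updateCol_smul,
        ← Matrix.det_updateCol_smul, ← Matrix.det_updateCol_add]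
      congr 2
      funext a
      simp only [hcs, e1, Derivation.leibniz, Derivation.leibniz_pow, Pi.add_apply, Pi.smul_apply,
        smul_eq_mul, nsmul_eq_mul, Nat.add_sub_cancel]
      ring
    have hb : ∀ y, P.v y ≤ 1 → ∀ c, P.v (Function.update (fun c => S.χ (q c)) cs y c) ≤ 1 := by
      intro y hy c
      by_cases hc : c = cs
      · subst hc; simpa using hy
      · simpa [hc] using hz c
    have hν : P.nu S.χ ≠ 0 := fun h => by
      have h2 := A.nu_qs
      have h3 : P.nu S.χ A.qs = 0 := DFunLike.congr_fun h _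
      omega
    set X := P.v h0 * WithZero.exp (- phi S.e (P.nu S.χ)) with hX
    have hmax := P.v.map_add
      ((((a' + 1 : ℕ) : K) * π ^ a' * w) * jac S.D (Function.update (fun c => S.χ (q c)) cs π))
      (π ^ (a' + 1) * jac S.D (Function.update (fun c => S.χ (q c)) cs w))
    rw [← hsplit, hj, hsum, le_max_iff] at hmax
    rcases hmax with hmax | hmax
    · refine ⟨_, hb π (by rw [hπ, ← WithZero.exp_zero, WithZero.exp_le_exp]; omega),
        Or.inr ⟨hν, ?_⟩⟩
      rw [map_mul, map_mul, map_mul, hvw, map_pow, hpw, mul_one] at hmax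
      have h5 : P.v ((a' + 1 : ℕ) : K) ≤ 1 := by simpa using P.v_intCast ((a' + 1 : ℕ) : ℤ)
      have h6 := hmax.trans (mul_le_mul_left (mul_le_mul_left h5 _) _)
      rw [one_mul, show -((a' : ℤ) + 1) = - (a' : ℤ) + -1 by ring, WithZero.exp_add,
        mul_assoc] at h6
      exact le_of_mul_le_mul_left h6 WithZero.exp_pos
    · refine ⟨_, hb w hvw.le, Or.inr ⟨hν, ?_⟩⟩
      rw [map_mul, map_pow, hpw] at hmax
      have h6 := le_of_mul_le_mul_left hmax WithZero.exp_pos
      refine le_trans ?_ h6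
      apply mul_le_of_le_one_left'
      rw [← WithZero.exp_zero, WithZero.exp_le_exp]; omega

end Sy

end Pool.Agent.Lib.MP_c5e1db_ag
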