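import Pool.Agent.Lib.MP_c5e1db_ag.Wall
import Pool.Agent.Lib.MP_c5e1db_ag.Sys
import Pool.Agent.Lib.MP_813db1_ag.Comb
import Pool.Agent.Lib.MP_813db1_ag.Bridge

/-!
Nondegeneracy on compact faces gives valuative nondegeneracy at all places centred at the fixed
point.
-/

namespace Pool.Agent.Lib.MP_c5e1db_ag

open Finset

variable {d : ℕ}

theorem interior_sum (rays : Finset (Fin d → ℤ))
    (full : ∀ m : Fin d → ℤ, (∀ e ∈ rays, e ⬝ᵥ m = 0) → m = 0) (l : rays → ℤ)
    (hl : ∀ e, 0 < l e) (m : Fin d → ℤ) (hm : m ∈ dual rays) (h0 : m ≠ 0) :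
    0 < (∑ e : rays, l e • e.1) ⬝ᵥ m := by
  rw [sum_dotProduct]
  simp only [smul_dotProduct, smul_eq_mul]
  refine sum_pos' (fun e _ => mul_nonneg (hl e).le (hm e e.2)) ?_
  by_contra hcon
  push Not at hcon
  refine h0 (full m fun e he => le_antisymm ?_ (hm e he))
  exact nonpos_of_mul_nonpos_right (hcon ⟨e, he⟩ (mem_univ _)) (hl ⟨e, he⟩) |> fun h => by
    nlinarith [hcon ⟨e, he⟩ (mem_univ _), hl ⟨e, he⟩, hm e he]

theorem exists_interior {Λ : Type} [AddCommGroup Λ] [LinearOrder Λ] [IsOrderedAddMonoid Λ]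
    (rays s : Finset (Fin d → ℤ)) (full : ∀ m : Fin d → ℤ, (∀ e ∈ rays, e ⬝ᵥ m = 0) → m = 0)
    (u : (Fin d → ℤ) →+ Λ) (hu : ∀ m ∈ dual rays, m ≠ 0 → 0 < u m) (q1 : Fin d → ℤ)
    (hq1 : q1 ∈ s) (hmin : ∀ q ∈ s, u q1 ≤ u q) :
    ∃ w : Fin d → ℤ, (∀ m ∈ dual rays, m ≠ 0 → 0 < w ⬝ᵥ m) ∧
      ∀ q, q ∈ face s w ↔ q ∈ s ∧ u q = u q1 := by
  classical
  let φ : (Fin d → ℤ) → ((rays → ℤ) →+ ℤ) := fun z => AddMonoidHom.mk'
    (fun l => (∑ e : rays, l e • e.1) ⬝ᵥ z) (fun a b => by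
      simp only [Pi.add_apply, add_smul, sum_add_distrib, add_dotProduct])
  have hφ : ∀ z (e : rays), φ z (Pi.single e 1) = e.1 ⬝ᵥ z := fun z e => by
    simp only [φ, AddMonoidHom.mk'_apply]
    rw [Fintype.sum_eq_single e (fun e' he => by simp [Pi.single_eq_of_ne he])]
    simp
  let z : s ⊕ s → Fin d → ℤ := Sum.elim (fun q => q.1 - q1)
    (fun q => if u q.1 = u q1 then q1 - q.1 else 0)
  let c : s ⊕ s → ℤ := Sum.elim (fun q => if u q.1 = u q1 then 0 else 1) 0
  have hz : ∀ t, 0 ≤ u (z t) ∧ (c t ≠ 0 → 0 < u (z t)) := by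
    rintro (q | q)
    · simp only [z, c, Sum.elim_inl, map_sub, sub_nonneg, sub_pos]
      refine ⟨hmin q q.2, fun h => lt_of_le_of_ne (hmin q q.2) fun e => h (if_pos e.symm)⟩
    · simp only [z, c, Sum.elim_inr]
      split_ifs with h
      · simp [h]
      · simp
  obtain ⟨k, l, hk, hl⟩ := MP_813db1_ag.CombAux.farkas (M := rays → ℤ) (T := rays ⊕ (s ⊕ s))
    (Sum.elim (fun e => Pi.evalAddMonoidHom (fun _ => ℤ) e) (fun t => φ (z t)))
    (Sum.elim 1 c) (fun a ha => by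
      have h1 : ∀ e : rays, (a (Sum.inl e) : ℤ) + e.1 ⬝ᵥ ∑ t, a (Sum.inr t) • z t = 0 := by
        intro e
        have := DFunLike.congr_fun ha (Pi.single e 1)
        rw [Fintype.sum_sum_type] at this
        simp only [AddMonoidHom.add_apply, AddMonoidHom.finsetSum_apply, Sum.elim_inl,
          Sum.elim_inr, AddMonoidHom.nsmul_apply, hφ, Pi.evalAddMonoidHom_apply,
          AddMonoidHom.zero_apply] at this
        rw [Fintype.sum_eq_single e (fun e' he => by simp [Pi.single_eq_of_ne he])] at this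
        rw [dotProduct_sum]
        simp only [dotProduct_smul]
        simpa only [Pi.single_eq_same, nsmul_eq_mul, mul_one] using this
      have h2 : 0 ≤ u (∑ t, a (Sum.inr t) • z t) := by
        rw [map_sum]
        exact sum_nonneg fun t _ => by rw [map_nsmul]; exact nsmul_nonneg (hz t).1 _
      have h3 : ∑ t, a (Sum.inr t) • z t = 0 := by
        by_contra hne
        have := hu (-∑ t, a (Sum.inr t) • z t) (fun e he => by
          have := h1 ⟨e, he⟩
          rw [dotProduct_neg]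
          simp only at this
          omega) (neg_ne_zero.2 hne)
        rw [map_neg, neg_pos] at this
        exact absurd h2 (not_le.2 this)
      rw [Fintype.sum_sum_type]
      refine (add_nonpos (sum_nonpos fun e _ => ?_) (sum_nonpos fun t _ => ?_))
      · have := h1 e
        rw [h3, dotProduct_zero, add_zero] at this
        simp [this]
      · have h4 := congrArg u h3
        rw [map_sum, map_zero, sum_eq_zero_iff_of_nonneg fun t _ => by
          rw [map_nsmul]; exact nsmul_nonneg (hz t).1 _] at h4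
        have h5 := h4 t (mem_univ _)
        rw [map_nsmul] at h5
        by_cases hc : c t = 0
        · simp [hc]
        · rcases Nat.eq_zero_or_pos (a (Sum.inr t)) with h | h
          · simp [h]
          · exact absurd h5 (nsmul_pos ((hz t).2 hc) h.ne').ne')
  have hk' : (0 : ℤ) < k := by exact_mod_cast hk
  have e1 : ∀ q ∈ s, u q = u q1 → (∑ e : rays, l e • e.1) ⬝ᵥ q = (∑ e : rays, l e • e.1) ⬝ᵥ q1 := by
    intro q hq h
    have a1 := hl (Sum.inr (Sum.inl ⟨q, hq⟩))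
    have a2 := hl (Sum.inr (Sum.inr ⟨q, hq⟩))
    simp only [Sum.elim_inr, Sum.elim_inl, z, c, φ, h, if_true, AddMonoidHom.mk'_apply,
      dotProduct_sub, Pi.zero_apply, mul_zero] at a1 a2
    omega
  have e2 : ∀ q ∈ s, u q ≠ u q1 → (∑ e : rays, l e • e.1) ⬝ᵥ q1 < (∑ e : rays, l e • e.1) ⬝ᵥ q := by
    intro q hq h
    have a1 := hl (Sum.inr (Sum.inl ⟨q, hq⟩))
    simp only [Sum.elim_inr, Sum.elim_inl, z, c, φ, h, if_false, AddMonoidHom.mk'_apply,
      dotProduct_sub] at a1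
    omega
  refine ⟨∑ e : rays, l e • e.1, interior_sum rays full l fun e => ?_, fun q => ?_⟩
  · have := hl (Sum.inl e)
    simp only [Sum.elim_inl, Pi.one_apply, mul_one, Pi.evalAddMonoidHom_apply] at this
    omega
  · rw [mem_face]
    refine and_congr_right fun hq => ⟨fun h => ?_, fun h q' hq' => ?_⟩
    · by_contra hne
      exact absurd (h q1 hq1) (not_le.2 (e2 q hq hne))
    · rw [e1 q hq h]
      by_cases h' : u q' = u q1
      · exact (e1 q' hq' h').ge
      · exact (e2 q' hq' h').le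

theorem mono_eq {F : Type} [Field F] (y : Fin d → Fˣ) : mono y = MP_813db1_ag.mono y := rfl

theorem nondeg_ext (s : Finset (Fin d → ℤ)) (c : (Fin d → ℤ) → ℂ)
    (h : ∀ y : Fin d → ℂˣ, evs y s c = 0 → ∃ j, evs y s (fun q => c q * q j) ≠ 0)
    {κ : Type} [Field κ] [Algebra ℂ κ] (y : Fin d → κˣ) (h1 : evs y s c = 0) :
    ∃ j, evs y s (fun q => c q * q j) ≠ 0 := by
  classical
  by_contra h2
  push Not at h2
  let t : Finset κ :=
    univ.image (fun j => (y j : κ)) ∪ univ.image (fun j => ((y j)⁻¹ : κˣ).val)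
  obtain ⟨φ⟩ := MP_813db1_ag.BridgeAux.exists_point t
  let A := Algebra.adjoin ℂ (t : Set κ)
  have m2 : ∀ j, (y j : κ) ∈ A := fun j => Algebra.subset_adjoin (by simp [t])
  have m3 : ∀ j, ((y j)⁻¹ : κˣ).val ∈ A := fun j => Algebra.subset_adjoin (by simp [t])
  let Y : Fin d → Aˣ := fun j => ⟨⟨_, m2 j⟩, ⟨_, m3 j⟩, Subtype.ext (y j).mul_inv,
    Subtype.ext (y j).inv_mul⟩
  have hy : ∀ q, mono y q = A.val ((∏ j, Y j ^ q j : Aˣ) : A) := fun q => by
    rw [← AlgHom.coe_toRingHom, ← MP_813db1_ag.BridgeAux.map_mono]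
    congr 1
  have hinj : Function.Injective A.val := Subtype.val_injective
  have key : ∀ c : (Fin d → ℤ) → ℂ, evs y s c = 0 →
      evs (fun j => Units.map φ.toRingHom.toMonoidHom (Y j)) s c = 0 := fun c hc => by
    have e : ∑ q ∈ s, algebraMap ℂ A (c q) * ((∏ j, Y j ^ q j : Aˣ) : A) = 0 := by
      apply hinj
      rw [map_zero, ← hc, map_sum]
      exact sum_congr rfl fun q _ => by rw [map_mul, AlgHom.commutes, hy]
    have := congrArg φ e
    rw [map_zero, map_sum] at this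
    rw [← this]
    exact sum_congr rfl fun q _ => by
      rw [map_mul, AlgHom.commutes, mono_eq, MP_813db1_ag.BridgeAux.map_mono]
      rfl
  obtain ⟨j, hj⟩ := h _ (key c h1)
  exact hj (key _ (h2 j))

theorem exists_ext {Ω : Type} [Field Ω] [IsAlgClosed Ω] (H : AddSubgroup (Fin d → ℤ))
    (ρ : H →+ Additive Ωˣ) : ∃ y : Fin d → Ωˣ, ∀ m : H, mono y m = (ρ m).toMul := by
  let _ : DivisibleBy (Additive Ωˣ) ℤ := divisibleByOfSMulRightSurj _ _ fun {n} hn a => by
    obtain ⟨y, hy⟩ := IsAlgClosed.exists_pow_nat_eq (a.toMul : Ω) (Int.natAbs_pos.2 hn)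
    have hy0 : y ≠ 0 := by
      rintro rfl
      rw [zero_pow (Int.natAbs_ne_zero.2 hn)] at hy
      exact a.toMul.ne_zero hy.symm
    refine ⟨n.sign • Additive.ofMul (Units.mk0 y hy0), ?_⟩
    change n • n.sign • _ = a
    rw [smul_smul, Int.mul_sign_self, natCast_zsmul]
    apply Additive.toMul.injective
    ext
    simpa using hy
  obtain ⟨z, hz⟩ := (Module.Baer.of_divisible (Additive Ωˣ)).extension_property_addMonoidHom
    H.subtype H.subtype_injective ρ
  obtain ⟨y, hy⟩ := MP_813db1_ag.BridgeAux.exists_mono (fun m => ((z m).toMul : Ω)) (by simp)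
    (fun a b => by simp)
  exact ⟨y, fun m => by rw [mono_eq, hy, ← hz]; rfl⟩

section Val

variable {K : Type} [Field K] [Algebra ℂ K]

theorem exists_val (J : Submodule ℂ K) (hmul : ∀ a ∈ J, ∀ b ∈ J, a * b ∈ J)
    (h1 : (1 : K) ∉ J) : ∃ W : ValuationSubring K, (∀ c : ℂ, algebraMap ℂ K c ∈ W) ∧
      ∀ a ∈ J, W.valuation a < 1 := by
  let A : Subring K :=
    { carrier := {x | ∃ c : ℂ, ∃ a ∈ J, x = algebraMap ℂ K c + a}
      mul_mem' := by
        rintro _ _ ⟨c, a, ha, rfl⟩ ⟨c', b, hb, rfl⟩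
        exact ⟨c * c', c • b + c' • a + a * b, J.add_mem (J.add_mem (J.smul_mem _ hb)
          (J.smul_mem _ ha)) (hmul a ha b hb), by simp only [Algebra.smul_def, map_mul]; ring⟩
      one_mem' := ⟨1, 0, J.zero_mem, by simp⟩
      add_mem' := by
        rintro _ _ ⟨c, a, ha, rfl⟩ ⟨c', b, hb, rfl⟩
        exact ⟨c + c', a + b, J.add_mem ha hb, by simp only [map_add]; ring⟩
      zero_mem' := ⟨0, 0, J.zero_mem, by simp⟩
      neg_mem' := by
        rintro _ ⟨c, a, ha, rfl⟩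
        exact ⟨-c, -a, J.neg_mem ha, by simp only [map_neg]; ring⟩ }
  let I : Ideal A :=
    { carrier := {x | (x : K) ∈ J}
      add_mem' := fun ha hb => J.add_mem ha hb
      zero_mem' := J.zero_mem
      smul_mem' := by
        rintro ⟨_, c, a, ha, rfl⟩ b hb
        change (algebraMap ℂ K c + a) * (b : K) ∈ J
        rw [add_mul, ← Algebra.smul_def]
        exact J.add_mem (J.smul_mem _ hb) (hmul a ha b hb) }
  obtain ⟨W, hA, hI⟩ := I.image_subset_nonunits_valuationSubring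
    (by rw [Ideal.ne_top_iff_one]; exact h1)
  exact ⟨W, fun c => hA ⟨c, 0, J.zero_mem, by simp⟩, fun a ha =>
    W.mem_nonunits_iff.1 (hI ⟨⟨a, 0, a, ha, by simp⟩, ha, rfl⟩)⟩

theorem mono_add {F : Type} [Field F] (y : Fin d → Fˣ) (a b : Fin d → ℤ) :
    mono y (a + b) = mono y a * mono y b := MP_813db1_ag.BridgeAux.mono_add y a b

theorem mono_ne {F : Type} [Field F] (y : Fin d → Fˣ) (a : Fin d → ℤ) : mono y a ≠ 0 :=
  Units.ne_zero _

theorem mono_zero {F : Type} [Field F] (y : Fin d → Fˣ) : mono y 0 = 1 := by simp [mono]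

theorem mono_neg {F : Type} [Field F] (y : Fin d → Fˣ) (a : Fin d → ℤ) :
    mono y (-a) = (mono y a)⁻¹ :=
  eq_inv_of_mul_eq_one_left (by rw [← mono_add, neg_add_cancel, mono_zero])

theorem evs_mul {F : Type} [Field F] [Algebra ℂ F] (y : Fin d → Fˣ) (s : Finset (Fin d → ℤ))
    (c : (Fin d → ℤ) → ℂ) (m : Fin d → ℤ) :
    evs y s c * mono y (-m) = ∑ q ∈ s, algebraMap ℂ F (c q) * mono y (q - m) := by
  rw [evs, sum_mul]
  exact sum_congr rfl fun q _ => by rw [sub_eq_add_neg, mono_add, mul_assoc]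

theorem nd_val (rays s : Finset (Fin d → ℤ))
    (full : ∀ m : Fin d → ℤ, (∀ e ∈ rays, e ⬝ᵥ m = 0) → m = 0) (c : (Fin d → ℤ) → ℂ)
    (nondeg : ∀ w : Fin d → ℤ, (∀ m ∈ dual rays, m ≠ 0 → 0 < w ⬝ᵥ m) →
      ∀ y : Fin d → ℂˣ, evs y (face s w) c = 0 → ∃ j, evs y (face s w) (fun q => c q * q j) ≠ 0)
    (x : Fin d → Kˣ) (hx : evs x s c = 0) (hs : s.Nonempty) (W : ValuationSubring K)
    (hc : ∀ c : ℂ, algebraMap ℂ K c ∈ W)
    (hW : ∀ m ∈ dual rays, m ≠ 0 → W.valuation (mono x m) < 1) :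
    ∃ q1 ∈ s, (∀ q ∈ s, W.valuation (mono x (q - q1)) ≤ 1) ∧
      ∃ j, ¬ W.valuation (evs x s (fun q => c q * q j) * mono x (-q1)) < 1 := by
  classical
  have hv : ∀ m, W.valuation (mono x m) ≠ 0 := fun m => (Valuation.ne_zero_iff _).2 (mono_ne x m)
  let u : (Fin d → ℤ) →+ Additive W.ValueGroupˣ := AddMonoidHom.mk'
    (fun m => Additive.ofMul (Units.mk0 _ (hv (-m)))) (fun a b => by
      rw [← ofMul_mul]
      exact congrArg _ (Units.ext (by simp [mono_add, mul_comm])))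
  have hle : ∀ m, 0 ≤ u m ↔ W.valuation (mono x m) ≤ 1 := fun m => by
    change (1 : W.ValueGroupˣ) ≤ Units.mk0 _ (hv (-m)) ↔ _
    rw [← Units.val_le_val, Units.val_mk0, mono_neg, map_inv₀, Units.val_one,
      one_le_inv₀ (zero_lt_iff.2 (hv m))]
  have hlt : ∀ m, 0 < u m ↔ W.valuation (mono x m) < 1 := fun m => by
    change (1 : W.ValueGroupˣ) < Units.mk0 _ (hv (-m)) ↔ _
    rw [← Units.val_lt_val, Units.val_mk0, mono_neg, map_inv₀, Units.val_one,
      one_lt_inv₀ (zero_lt_iff.2 (hv m))]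
  obtain ⟨q1, hq1, hmin⟩ := s.exists_min_image u hs
  obtain ⟨w, hw, hface⟩ := exists_interior rays s full u (fun m hm h0 => (hlt m).2 (hW m hm h0))
    q1 hq1 hmin
  have hq : ∀ q ∈ s, W.valuation (mono x (q - q1)) ≤ 1 := fun q hq => by
    rw [← hle, map_sub, sub_nonneg]; exact hmin q hq
  let Ω := AlgebraicClosure (IsLocalRing.ResidueField W)
  let ρ : W →+* Ω := (algebraMap _ Ω).comp (IsLocalRing.residue W)
  have hρ : ∀ z : W, ρ z = 0 ↔ W.valuation z < 1 := fun z => by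
    rw [RingHom.comp_apply, map_eq_zero, IsLocalRing.residue_eq_zero_iff,
      W.valuation_lt_one_iff]
  let ι : ℂ →+* W := (algebraMap ℂ K).codRestrict W.toSubring hc
  let _ : Algebra ℂ Ω := (ρ.comp ι).toAlgebra
  let T : (Fin d → ℤ) → W := fun m => if h : mono x m ∈ W then ⟨_, h⟩ else 0
  have hT : ∀ m, 0 ≤ u m → (T m : K) = mono x m := fun m hm => by
    simp only [T, dif_pos ((W.valuation_le_one_iff _).1 ((hle m).1 hm))]
  have hne : ∀ m : u.ker, ρ (T m) ≠ 0 := fun m h => by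
    rw [hρ, hT m m.2.ge, ← hlt] at h
    exact h.ne' m.2
  obtain ⟨y, hy⟩ := exists_ext u.ker (AddMonoidHom.mk'
    (fun m => Additive.ofMul (Units.mk0 _ (hne m))) (fun a b => by
      rw [← ofMul_mul]
      refine congrArg _ (Units.ext ?_)
      change ρ (T (a + b : u.ker)) = ρ (T a) * ρ (T b)
      rw [← map_mul]
      refine congrArg _ (Subtype.ext ?_)
      rw [hT _ (a + b).2.ge, MulMemClass.coe_mul, hT _ a.2.ge, hT _ b.2.ge, AddSubgroup.coe_add,
        mono_add]))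
  have key : ∀ c : (Fin d → ℤ) → ℂ, evs y (face s w) c = 0 ↔
      W.valuation (evs x s c * mono x (-q1)) < 1 := fun c => by
    have h1 : ((∑ q ∈ s, ι (c q) * T (q - q1) : W) : K) = evs x s c * mono x (-q1) := by
      rw [evs_mul, AddSubmonoidClass.coe_finsetSum]
      exact sum_congr rfl fun q hq' => by
        rw [MulMemClass.coe_mul, hT _ ((hle _).2 (hq q hq'))]; rfl
    have h2 : ρ (∑ q ∈ s, ι (c q) * T (q - q1)) = evs y (face s w) c * mono y (-q1) := by
      rw [evs_mul, map_sum, eq_comm]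
      refine (sum_congr rfl fun q hq' => ?_).trans (sum_subset (filter_subset _ _) fun q h1 h2 => ?_)
      · rw [map_mul, hy ⟨q - q1, by
          rw [AddMonoidHom.mem_ker, map_sub, ((hface q).1 hq').2, sub_self]⟩]
        rfl
      · rw [map_mul, (hρ (T _)).2, mul_zero]
        rw [hT _ ((hle _).2 (hq q h1)), ← hlt, map_sub, sub_pos]
        exact lt_of_le_of_ne (hmin q h1) fun e => h2 ((hface q).2 ⟨h1, e.symm⟩)
    rw [← h1, ← hρ, h2, mul_eq_zero, or_iff_left (mono_ne _ _)]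
  obtain ⟨j, hj⟩ := nondeg_ext _ c (nondeg w hw) y ((key c).2 (by simp [hx]))
  exact ⟨q1, hq1, hq, j, fun h => hj ((key _).2 h)⟩

end Val

namespace Germ

open MP_813db1_ag (Γ Place monoChar)

variable {n : ℕ} (G : Germ n)

theorem supp_nonempty : G.g.coeff.support.Nonempty := by
  rw [nonempty_iff_ne_empty]
  intro h
  exact G.hi (by rw [h, evs, sum_empty])

theorem rel : evs G.x G.g.coeff.support G.g.coeff = 0 := (G.ker _).2 dvd_rfl

theorem exists_W (v : Valuation G.K Γ) (hk : ∀ c : ℂ, v (algebraMap ℂ G.K c) ≤ 1)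
    (h : G.Centred v) : ∃ W : ValuationSubring G.K, (∀ c : ℂ, algebraMap ℂ G.K c ∈ W) ∧
      (∀ m ∈ dual G.rays, m ≠ 0 → W.valuation (mono G.x m) < 1) ∧
      ∀ z, v z < 1 → W.valuation z < 1 := by
  have hs : ∀ (c : ℂ) z, v (c • z) ≤ v z := fun c z => by
    rw [Algebra.smul_def, map_mul]; exact mul_le_of_le_one_left' (hk c)
  let I : Submodule ℂ G.K :=
    { carrier := {z | v z < 1}
      add_mem' := fun ha hb => v.map_add_lt ha hb
      zero_mem' := by simp
      smul_mem' := fun c z hz => (hs c z).trans_lt hz }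
  let S := Submodule.span ℂ (mono G.x '' (dual G.rays \ {0}))
  have hS : ∀ a ∈ S, v a ≤ 1 := fun a ha => by
    induction ha using Submodule.span_induction with
    | mem _ ha => obtain ⟨m, hm, rfl⟩ := ha; exact h.1 m hm.1
    | zero => simp
    | add _ _ _ _ ha hb => exact v.map_add_le ha hb
    | smul c z _ hz => exact (hs c z).trans hz
  have hSS : S * S ≤ S := by
    rw [Submodule.span_mul_span]
    refine Submodule.span_mono ?_
    rintro _ ⟨_, ⟨a, ha, rfl⟩, _, ⟨b, hb, rfl⟩, rfl⟩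
    refine ⟨a + b, ⟨fun e he => ?_, fun h0 => ha.2 (G.full a fun e he => ?_)⟩, mono_add _ _ _⟩
    · rw [dotProduct_add]; exact add_nonneg (ha.1 e he) (hb.1 e he)
    · have h1 := congrArg (e ⬝ᵥ ·) (show a + b = 0 from h0)
      simp only [dotProduct_add, dotProduct_zero] at h1
      have := ha.1 e he
      have := hb.1 e he
      omega
  obtain ⟨W, h1, h2⟩ := exists_val (S ⊔ I) (fun a ha b hb => by
      obtain ⟨a1, ha1, a2, ha2, rfl⟩ := Submodule.mem_sup.1 ha
      obtain ⟨b1, hb1, b2, hb2, rfl⟩ := Submodule.mem_sup.1 hb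
      refine Submodule.mem_sup.2 ⟨a1 * b1, hSS (Submodule.mul_mem_mul ha1 hb1),
        a1 * b2 + a2 * (b1 + b2), v.map_add_lt ?_ ?_, by ring⟩
      · rw [map_mul]; exact (mul_le_of_le_one_left' (hS a1 ha1)).trans_lt hb2
      · rw [map_mul]
        exact (mul_le_of_le_one_right' (v.map_add_le (hS b1 hb1) (le_of_lt hb2))).trans_lt ha2)
    (fun h1 => by
      obtain ⟨a1, ha1, a2, ha2, e⟩ := Submodule.mem_sup.1 h1
      have h3 := h.2 _ (S.neg_mem ha1)
      rw [← e, show a1 + a2 + -a1 = a2 by ring] at h3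
      exact absurd h3 (ne_of_lt ha2))
  exact ⟨W, h1, fun m hm h0 => h2 _ (Submodule.mem_sup_left (Submodule.subset_span
    ⟨m, ⟨hm, h0⟩, rfl⟩)), fun z hz => h2 _ (Submodule.mem_sup_right hz)⟩

theorem not_locMono (P : Place ℂ G.K) (h : G.Centred P.v) (w : Fin (n + 1) → ℤ)
    (hw : ∀ m, w ⬝ᵥ m = P.nu (monoChar G.x) m) : ¬ LocMono G.rays G.g.coeff.support w := by
  classical
  rintro ⟨m, hm, hm'⟩
  obtain ⟨W, h1, h2, h3⟩ := G.exists_W P.v P.hk h
  obtain ⟨hms, hmin⟩ := mem_face.1 hm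
  have e := evs_mul G.x G.g.coeff.support G.g.coeff m
  rw [G.rel, zero_mul, ← add_sum_erase _ _ hms, sub_self, mono_zero, mul_one, eq_comm,
    add_eq_zero_iff_eq_neg] at e
  have h4 : W.valuation (algebraMap ℂ G.K (G.g.coeff m)) < 1 := by
    rw [e, Valuation.map_neg]
    refine W.valuation.map_sum_lt one_ne_zero fun q hq => ?_
    obtain ⟨hq1, hq2⟩ := mem_erase.1 hq
    rw [map_mul]
    refine (mul_le_of_le_one_left' ((W.valuation_le_one_iff _).2 (h1 _))).trans_lt ?_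
    by_cases hf : q ∈ face G.g.coeff.support w
    · exact h2 _ (hm' q hf) (sub_ne_zero.2 hq1)
    · refine h3 _ ((P.v_chi_lt_one (monoChar G.x) _).2 ?_)
      rw [← hw, dotProduct_sub, sub_pos]
      exact lt_of_le_of_ne (hmin q hq2) fun e =>
        hf (mem_face.2 ⟨hq2, fun q' hq' => e ▸ hmin q' hq'⟩)
  have h5 := (W.valuation_le_one_iff _).2 (h1 (G.g.coeff m)⁻¹)
  have h6 := (mul_le_of_le_one_left' h5).trans_lt h4
  rw [← map_mul, ← map_mul, inv_mul_cancel₀ (Finsupp.mem_support_iff.1 hms)] at h6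
  simp at h6

theorem nd_centred (P : Place ℂ G.K) (h : G.Centred P.v) :
    NDat (ι := Unit) (Q := fun _ => G.g.coeff.support) (fun _ q => q.1)
      (fun _ q => G.g.coeff q.1) (monoChar G.x) P := by
  intro q0 hq0 α hα
  funext i
  by_contra hne
  obtain ⟨W, h1, h2, h3⟩ := G.exists_W P.v P.hk h
  obtain ⟨q1, -, hq, j, hj⟩ := nd_val G.rays _ G.full _ G.nondeg G.x G.rel G.supp_nonempty W h1 h2
  have h4 := hα (Pi.evalAddMonoidHom (fun _ => ℤ) j)
  rw [Fintype.sum_unique] at h4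
  have h5 := (mul_eq_zero.1 h4).resolve_left hne
  have h6 : ∀ (q : G.g.coeff.support) (z : ℤ), P.v (algebraMap ℂ G.K (G.g.coeff q.1) *
      monoChar G.x (q.1 - (q0 ()).1) * (z : G.K)) ≤ 1 := fun q z => by
    rw [map_mul, map_mul]
    exact mul_le_one' (mul_le_one' (P.hk _) (hq0 () q)) (P.v_intCast _)
  have h7 : evs G.x G.g.coeff.support (fun q => G.g.coeff q * q j) * mono G.x (-(q0 ()).1) =
      ∑ q : G.g.coeff.support, algebraMap ℂ G.K (G.g.coeff q.1) *
        monoChar G.x (q.1 - (q0 ()).1) * (((q.1 - (q0 ()).1) j : ℤ) : G.K) := by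
    have e := evs_mul G.x G.g.coeff.support G.g.coeff (q0 ()).1
    rw [G.rel, zero_mul] at e
    rw [sum_coe_sort G.g.coeff.support (fun q => algebraMap ℂ G.K (G.g.coeff q) *
        monoChar G.x (q - (q0 ()).1) * (((q - (q0 ()).1) j : ℤ) : G.K)), evs_mul]
    simp only [Pi.sub_apply, Int.cast_sub, mul_sub, sum_sub_distrib, ← sum_mul]
    change _ = _ - (∑ q ∈ _, _ * mono G.x (q - (q0 ()).1)) * _
    rw [← e, zero_mul, sub_zero]
    refine sum_congr rfl fun q _ => ?_
    rw [map_mul, map_intCast, mul_right_comm]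
    rfl
  have h8 : P.v (evs G.x G.g.coeff.support (fun q => G.g.coeff q * q j) *
      mono G.x (-(q0 ()).1)) < 1 := by
    rw [h7, ← P.res_eq_zero (P.v.map_sum_le fun q _ => h6 q _), P.res_sum _ _ fun q _ => h6 q _,
      ← h5]
    refine sum_congr rfl fun q _ => ?_
    rw [P.res_mul _ (P.v_intCast _), P.res_mul (P.hk _) (hq0 () q), P.res_algebraMap,
      P.res_intCast]
    · rfl
    · rw [map_mul]; exact mul_le_one' (P.hk _) (hq0 () q)
  apply hj
  have h9 := (mul_le_of_le_one_right' (hq _ (q0 ()).2)).trans_lt (h3 _ h8)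
  rwa [← map_mul, mul_assoc, ← mono_add, neg_add_eq_sub, sub_sub_cancel_left] at h9

end Germ

end Pool.Agent.Lib.MP_c5e1db_ag
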