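import Pool.Agent.Lib.MP_c5e1db_ag.Good
import Pool.Agent.Lib.MP_c5e1db_ag.NDLoc

/-!
Existence of a prime divisor with a prescribed monomial weight whose centre contains the fixed
point.
-/

namespace Pool.Agent.Lib.MP_c5e1db_ag

open Finset
open MP_813db1_ag (Γ Place monoChar)

section

variable {d : ℕ} {K : Type} [Field K] [Algebra ℂ K]

/-- Evaluation of Laurent polynomials. -/
noncomputable def ev (x : Fin d → Kˣ) : AddMonoidAlgebra ℂ (Fin d → ℤ) →ₐ[ℂ] K :=
  AddMonoidAlgebra.lift ℂ K _ (monoChar x).toMonoidHom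

theorem ev_eq (x : Fin d → Kˣ) (p : AddMonoidAlgebra ℂ (Fin d → ℤ)) :
    ev x p = evs x p.coeff.support p.coeff := rfl

theorem ev_single (x : Fin d → Kˣ) (m : Fin d → ℤ) :
    ev x (AddMonoidAlgebra.single m 1) = mono x m := by
  rw [ev, AddMonoidAlgebra.lift_single, one_smul]; rfl

/-- The weight given by a vector. -/
def dotHom (w : Fin d → ℤ) : (Fin d → ℤ) →+ ℤ :=
  AddMonoidHom.mk' (fun m => w ⬝ᵥ m) (dotProduct_add w)

theorem exists_R {Λ : Type} [AddCommGroup Λ] [LinearOrder Λ] [IsOrderedAddMonoid Λ]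
    (W : (Fin d → ℤ) →+ Λ) (w ξ : (Fin d → ℤ) →+ ℤ) (hW : ∀ a b, w a < w b → W a < W b)
    (x : Fin d → Kˣ) (hx : ∀ s, Good W w ξ s → ev x s ≠ 0) (qs : Fin d → ℤ) (hq : w qs = 1) :
    ∃ R : ValuationSubring K, (∀ b, Pos w 0 b → ev x b ∈ R) ∧
      (∀ s, Good W w ξ s → (ev x s)⁻¹ ∈ R) ∧ R.valuation (mono x qs) < 1 := by
  let A : Subring K :=
    { carrier := {z | ∃ b s, Pos w 0 b ∧ Good W w ξ s ∧ z * ev x s = ev x b}
      mul_mem' := by
        rintro y z ⟨b, s, hb, hs, e⟩ ⟨b', s', hb', hs', e'⟩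
        exact ⟨b * b', s * s', hb.mul hb', hs.mul hs', by
          rw [map_mul, map_mul, ← e, ← e']; ring⟩
      one_mem' := ⟨1, 1, (good_one (W := W) (ξ := ξ)).pos hW, good_one, one_mul _⟩
      add_mem' := by
        rintro y z ⟨b, s, hb, hs, e⟩ ⟨b', s', hb', hs', e'⟩
        exact ⟨b * s' + b' * s, s * s', (hb.mul (hs'.pos hW)).add (hb'.mul (hs.pos hW)),
          hs.mul hs', by rw [map_add, map_mul, map_mul, map_mul, ← e, ← e']; ring⟩
      zero_mem' := ⟨0, 1, fun m hm => by simp at hm, good_one, by simp⟩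
      neg_mem' := by
        rintro y ⟨b, s, hb, hs, e⟩
        exact ⟨-b, s, hb.neg, hs, by rw [map_neg, ← e]; ring⟩ }
  have h1 : ∀ b, Pos w 0 b → ev x b ∈ A := fun b hb => ⟨b, 1, hb, good_one, by simp⟩
  let t : A := ⟨_, h1 _ (pos_single (by rw [hq]; exact zero_le_one) 1)⟩
  obtain ⟨R, hA, hI⟩ := (Ideal.span {t}).image_subset_nonunits_valuationSubring (by
    rw [Ideal.ne_top_iff_one, Ideal.mem_span_singleton']
    rintro ⟨⟨z, b, s, hb, hs, e⟩, hz⟩
    have h2 : z * ev x (AddMonoidAlgebra.single qs 1) = 1 := congrArg Subtype.val hz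
    refine hx _ (hs.sub hW (hb.mul (pos_single hq.ge 1))) ?_
    rw [map_sub, map_mul, ← e, mul_right_comm, h2, one_mul, sub_self])
  refine ⟨R, fun b hb => hA (h1 b hb), fun s hs => hA ⟨1, s,
    (good_one (W := W) (ξ := ξ)).pos hW, hs, by rw [inv_mul_cancel₀ (hx s hs), map_one]⟩, ?_⟩
  rw [← ev_single]
  exact R.mem_nonunits_iff.1 (hI ⟨t, Ideal.mem_span_singleton_self t, rfl⟩)

theorem exists_indep {n : ℕ} (w ξ : (Fin (n + 1) → ℤ) →+ ℤ) :
    ∃ mm : Fin (n - 1) → Fin (n + 1) → ℤ, LinearIndependent ℤ mm ∧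
      ∀ b, w (mm b) = 0 ∧ ξ (mm b) = 0 := by
  let F := (w.prod ξ).toIntLinearMap
  have h1 := (LinearMap.ker F).finrank_quotient_add_finrank (R := ℤ)
  rw [F.quotKerEquivRange.finrank_eq] at h1
  have h2 := Submodule.finrank_le (LinearMap.range F)
  simp only [Module.finrank_prod, Module.finrank_self, Module.finrank_fintype_fun_eq_card,
    Fintype.card_fin] at h1 h2
  obtain ⟨f, hf⟩ := exists_linearIndependent_of_le_finrank (R := ℤ) (M := LinearMap.ker F)
    (n := n - 1) (by omega)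
  exact ⟨fun b => f b, hf.map' (LinearMap.ker F).subtype (Submodule.ker_subtype _),
    fun b => Prod.mk.inj (f b).2⟩

theorem exists_poly {σ : Type} (x : Fin d → Kˣ) (mm : σ → Fin d → ℤ)
    (h : LinearIndependent ℤ mm) (c : MvPolynomial σ ℂ) (hc : c ≠ 0) :
    ∃ p : AddMonoidAlgebra ℂ (Fin d → ℤ), p ≠ 0 ∧
      ev x p = MvPolynomial.aeval (fun b => mono x (mm b)) c ∧
      ∀ m ∈ p.coeff.support, m ∈ Submodule.span ℤ (Set.range mm) := by
  classical
  let f : (σ →₀ ℕ) →+ (Fin d → ℤ) := (Finsupp.linearCombination ℤ mm).toAddMonoidHom.comp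
    (Finsupp.mapRange.addMonoidHom (Nat.castAddMonoidHom ℤ))
  have hf : Function.Injective f := Function.Injective.comp (g := Finsupp.linearCombination ℤ mm) h
    (Finsupp.mapRange_injective _ (map_zero (Nat.castAddMonoidHom ℤ)) Nat.cast_injective)
  refine ⟨AddMonoidAlgebra.mapDomainAlgHom ℂ ℂ f c, fun h0 => hc
    (AddMonoidAlgebra.mapDomain_injective hf (h0.trans (AddMonoidAlgebra.mapDomain_zero f).symm)),
    ?_, fun m hm => ?_⟩
  · refine DFunLike.congr_fun (?_ : (ev x).comp (AddMonoidAlgebra.mapDomainAlgHom ℂ ℂ f) = _) c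
    refine MvPolynomial.algHom_ext fun b => ?_
    rw [MvPolynomial.aeval_X, ← ev_single]
    change ev x (AddMonoidAlgebra.mapDomain f (AddMonoidAlgebra.single _ 1)) = _
    rw [AddMonoidAlgebra.mapDomain_single]
    simp [f]
  · obtain ⟨a, -, rfl⟩ := mem_image.1 (Finsupp.mapDomain_support hm)
    rw [← Finsupp.range_linearCombination]
    exact ⟨_, rfl⟩

theorem der_zero {n : ℕ} {τ : Type} [Fintype τ] (D : Module.Basis (Fin n) K (Derivation ℂ K K))
    (x : τ → K) (hx : AlgebraicIndependent ℂ x) (hn : Fintype.card τ = n) [Nonempty τ]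
    (D' : Derivation ℂ K K) (h : ∀ b, D' (x b) = 0) : D' = 0 := by
  classical
  obtain ⟨E, hE⟩ := MP_813db1_ag.DerAux.exists_dual x hx
  have h1 : LinearIndependent K E := by
    rw [Fintype.linearIndependent_iff]
    intro g hg b
    have := DFunLike.congr_fun hg (x b)
    rw [MP_813db1_ag.DerAux.sum_smul_apply] at this
    simpa [hE] using this
  have h2 := h1.span_eq_top_of_card_eq_finrank (by rw [Module.finrank_eq_card_basis D, hn]; simp)
  obtain ⟨g, rfl⟩ := (Submodule.mem_span_range_iff_exists_fun K).1 (h2.ge (Submodule.mem_top :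
    D' ∈ ⊤))
  refine sum_eq_zero fun b _ => ?_
  have := h b
  rw [MP_813db1_ag.DerAux.sum_smul_apply] at this
  rw [show g b = 0 by simpa [hE] using this, zero_smul]

open scoped IntermediateField in
theorem exists_disc {n : ℕ} (hn : 0 < n) (D : Module.Basis (Fin n) K (Derivation ℂ K K))
    (x : Fin d → K) (gen : IntermediateField.adjoin ℂ (Set.range x) = ⊤) (R : ValuationSubring K)
    (y : Fin (n - 1) → K) (hy : ∀ c : MvPolynomial (Fin (n - 1)) ℂ, c ≠ 0 →
      R.valuation (MvPolynomial.aeval y c) = 1) (t : K) (ht0 : t ≠ 0) (ht : R.valuation t < 1) :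
    ∃ v : Valuation K Γ, Function.Surjective v ∧ v t < 1 ∧ ∀ z ∈ R, v z ≤ 1 := by
  let E := IntermediateField.adjoin ℂ (Set.range y)
  have hE : ∀ c : E, algebraMap E K c ∈ R := fun c => by
    obtain ⟨r, s, e⟩ := (IntermediateField.mem_adjoin_range_iff _ _ _).1 c.2
    rw [← R.valuation_le_one_iff, show algebraMap E K c = _ from e, map_div₀]
    by_cases hr : r = 0
    · simp [hr]
    by_cases hs : s = 0
    · simp [hs]
    rw [hy r hr, hy s hs, div_one]
  have hy' : AlgebraicIndependent ℂ y := algebraicIndependent_iff.2 fun c hc => by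
    by_contra h
    simpa [hc] using hy c h
  have htr : ¬ IsAlgebraic E t := fun h => by
    let _ : Algebra E R := ((algebraMap E K).codRestrict R.toSubring hE).toAlgebra
    have : IsScalarTower E R K := IsScalarTower.of_algebraMap_eq fun _ => rfl
    obtain ⟨z, hz⟩ := IsIntegrallyClosed.isIntegral_iff.1
      (IsIntegral.tower_top (A := R) h.inv.isIntegral)
    have h1 := (mul_le_of_le_one_left' (R.valuation_le_one z)).trans_lt ht
    rw [← map_mul, show (z : K) = t⁻¹ from hz, inv_mul_cancel₀ ht0] at h1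
    simp at h1
  have h1 := (hy'.option_iff_transcendental t).2 fun h =>
    htr (IntermediateField.isAlgebraic_adjoin_iff.2 h)
  have : CharZero E := charZero_of_injective_algebraMap (algebraMap ℂ E).injective
  have h2 := MP_813db1_ag.isAlgebraic_of_der (k := E) E⟮t⟯ fun D' hD' => by
    have h3 := der_zero D _ h1 (by simp; omega) (D'.restrictScalars ℂ) (by
      rintro (_ | b)
      · exact hD' t (IntermediateField.mem_adjoin_simple_self E t)
      · exact D'.map_algebraMap ⟨y b, IntermediateField.subset_adjoin _ _ ⟨b, rfl⟩⟩)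
    ext z
    exact DFunLike.congr_fun h3 z
  have h3 := IntermediateField.finiteDimensional_adjoin (K := E⟮t⟯) (S := Set.range x)
    fun z _ => (h2 z).isIntegral
  rw [IntermediateField.adjoin_eq_top_of_adjoin_eq_top E
    (IntermediateField.adjoin_eq_top_of_adjoin_eq_top ℂ gen)] at h3
  have : FiniteDimensional E⟮t⟯ K := IntermediateField.topEquiv.toLinearEquiv.finiteDimensional
  exact exists_dvr t ht0 R hE ht

end

theorem Germ.exists_place {n : ℕ} (G : Germ n) (hn : 0 < n) (w qs : Fin (n + 1) → ℤ)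
    (hq : w ⬝ᵥ qs = 1) (hw : ∀ m ∈ dual G.rays, 0 ≤ w ⬝ᵥ m)
    (hL : ¬ LocMono G.rays G.g.coeff.support w) :
    ∃ P : Place ℂ G.K, IsPrimeDivisor n P.v ∧ G.Centred P.v ∧ ∃ a : ℤ, 0 < a ∧
      (∀ m, P.nu (monoChar G.x) m = a * (w ⬝ᵥ m)) ∧ ∃ mm : Fin (n - 1) → Fin (n + 1) → ℤ,
        (∀ b, w ⬝ᵥ mm b = 0) ∧ AlgebraicIndependent ℂ fun b => P.res (mono G.x (mm b)) := by
  obtain ⟨u, hu, q1, h1, q2, h2, hne⟩ := tie G.rays _ G.supp_nonempty G.full w hL
  obtain ⟨j, hj⟩ := Function.ne_iff.1 hne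
  obtain ⟨h1, h1'⟩ := mem_face.1 h1
  obtain ⟨h2, h2'⟩ := mem_face.1 h2
  let W := lexHom (dotHom w) (dotHom u)
  let ξ : (Fin (n + 1) → ℤ) →+ ℤ := Pi.evalAddMonoidHom (fun _ => ℤ) j
  have hW : ∀ a b, dotHom w a < dotHom w b → W a < W b := fun a b h =>
    Prod.Lex.toLex_lt_toLex.2 (Or.inl h)
  have hmin : ∀ q ∈ face G.g.coeff.support w, (∀ q' ∈ face G.g.coeff.support w,
      u ⬝ᵥ q ≤ u ⬝ᵥ q') → ∀ q' ∈ G.g.coeff.support, W q ≤ W q' := fun q hq h q' hq' => by
    obtain ⟨a1, a2⟩ := mem_face.1 hq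
    rw [lexHom_le]
    exact (a2 q' hq').lt_or_eq.imp_right fun e =>
      ⟨e, h q' (mem_face.2 ⟨hq', fun z hz => e.ge.trans (a2 z hz)⟩)⟩
  have hx : ∀ s, Good W (dotHom w) ξ s → ev G.x s ≠ 0 := fun s hs h0 =>
    hs.not_dvd (mem_face.1 h1).1 (mem_face.1 h2).1 (hmin q1 h1 h1')
      (le_antisymm (hmin q2 h2 h2' q1 (mem_face.1 h1).1) (hmin q1 h1 h1' q2 (mem_face.1 h2).1))
      hj ((G.ker s).1 h0)
  obtain ⟨R, hR1, hR2, hR3⟩ := exists_R W (dotHom w) ξ hW G.x hx qs hq
  obtain ⟨mm, hmm, hmm'⟩ := exists_indep (dotHom w) ξ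
  have hunit : ∀ {Γ₀ : Type} [LinearOrderedCommGroupWithZero Γ₀] (v : Valuation G.K Γ₀),
      (∀ z ∈ R, v z ≤ 1) → ∀ s, Good W (dotHom w) ξ s → v (ev G.x s) = 1 := by
    intro _ _ v hv s hs
    refine le_antisymm (hv _ (hR1 s (hs.pos hW))) ?_
    have := hv _ (hR2 s hs)
    rwa [map_inv₀, inv_le_one₀ (zero_lt_iff.2 ((Valuation.ne_zero_iff _).2 (hx s hs)))] at this
  have hpoly : ∀ c : MvPolynomial (Fin (n - 1)) ℂ, c ≠ 0 → ∃ s, Good W (dotHom w) ξ s ∧
      ev G.x s = MvPolynomial.aeval (fun b => mono G.x (mm b)) c := fun c hc => by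
    obtain ⟨p, hp, e, hp'⟩ := exists_poly G.x mm hmm c hc
    refine ⟨p, good_ker hp fun m hm => ?_, e⟩
    have := hp' m hm
    clear hm
    induction this using Submodule.span_induction with
    | mem _ h => obtain ⟨b, rfl⟩ := h; exact hmm' b
    | zero => simp
    | add _ _ _ _ ha hb => simp only [map_add, ha, hb, add_zero, and_self]
    | smul _ _ _ ha => simp only [map_zsmul, ha, smul_zero, and_self]
  obtain ⟨v, hv1, hv2, hv3⟩ := exists_disc hn G.D _ G.gen R (fun b => mono G.x (mm b))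
    (fun c hc => by
      obtain ⟨s, hs, e⟩ := hpoly c hc
      rw [← e]
      exact hunit _ (fun z hz => (R.valuation_le_one_iff z).2 hz) s hs) _ (mono_ne _ _) hR3
  have hk : ∀ c : ℂ, v (algebraMap ℂ G.K c) ≤ 1 := fun c => by
    rw [← (ev G.x).commutes]
    exact hv3 _ (hR1 _ (pos_single (m := 0) (by simp) c))
  obtain ⟨P, rfl⟩ := MP_813db1_ag.exists_place v hk
  have hm : ∀ m, 0 ≤ w ⬝ᵥ m → P.v (mono G.x m) ≤ 1 := fun m hm => by
    rw [← ev_single]; exact hv3 _ (hR1 _ (pos_single hm 1))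
  have hy : ∀ c : MvPolynomial (Fin (n - 1)) ℂ, c ≠ 0 →
      P.v (MvPolynomial.aeval (fun b => mono G.x (mm b)) c) = 1 := fun c hc => by
    obtain ⟨s, hs, e⟩ := hpoly c hc
    rw [← e]
    exact hunit _ hv3 s hs
  refine ⟨P, ⟨hv1, hk, _, hy⟩, ⟨fun m h => hm m (hw m h), fun a ha => ?_⟩,
    P.nu (monoChar G.x) qs, (P.v_chi_lt_one _ _).1 hv2, fun m => ?_, mm, fun b => (hmm' b).1,
    algebraicIndependent_iff.2 fun c hc => ?_⟩
  · have : ∃ p, (∀ m ∈ p.coeff.support, 0 < W m) ∧ ev G.x p = a := by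
      classical
      induction ha using Submodule.span_induction with
      | mem _ h =>
        obtain ⟨m, h, rfl⟩ := h
        refine ⟨_, fun m' hm' => ?_, ev_single _ m⟩
        rw [mem_singleton.1 (Finsupp.support_single_subset hm')]
        exact Prod.Lex.toLex_lt_toLex.2 ((hw m h.1).lt_or_eq.imp_right fun e => ⟨e, hu m h.1 h.2⟩)
      | zero => exact ⟨0, by simp, map_zero _⟩
      | add _ _ _ _ ha hb =>
        obtain ⟨p, hp, rfl⟩ := ha
        obtain ⟨q, hq, rfl⟩ := hb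
        exact ⟨p + q, fun m hm => (mem_union.1 (Finsupp.support_add hm)).elim (hp m) (hq m),
          map_add _ _ _⟩
      | smul c _ _ ha =>
        obtain ⟨p, hp, rfl⟩ := ha
        exact ⟨c • p, fun m hm => hp m (Finsupp.support_smul hm), map_smul _ _ _⟩
    obtain ⟨p, hp, rfl⟩ := this
    rw [← map_one (ev G.x), ← map_add]
    exact hunit _ hv3 _ (good_one_add hp)
  · have e : w ⬝ᵥ (m - (w ⬝ᵥ m) • qs) = 0 := by
      rw [dotProduct_sub, dotProduct_smul, hq]; simp
    have a1 := (P.v_chi_le_one (monoChar G.x) _).1 (hm _ e.ge)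
    have a2 := (P.v_chi_le_one (monoChar G.x) _).1 (hm (-(m - (w ⬝ᵥ m) • qs)) (by
      rw [dotProduct_neg, e]; simp))
    rw [map_neg] at a2
    rw [map_sub, map_zsmul, smul_eq_mul] at a1 a2
    linarith
  · obtain ⟨a1, a2⟩ := P.res_aeval (fun b => mono G.x (mm b)) (fun b => hm _ (hmm' b).1.ge) c
    by_contra h
    rw [← a2, P.res_eq_zero a1, hy c h] at hc
    exact lt_irrefl _ hc

end Pool.Agent.Lib.MP_c5e1db_ag
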