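import Mathlib

/-!
Limits of subgroups of a normed space that contain a fixed cocompact subgroup.
-/

namespace Pool.Agent.Lib.MP_c5e1db_ag

open Filter Topology Metric

variable {E : Type} [NormedAddCommGroup E] [NormedSpace ℝ E]

/-- The limit of a sequence of subgroups along an ultrafilter. -/
def limSub (U : Ultrafilter ℕ) (N : ℕ → AddSubgroup E) : AddSubgroup E where
  carrier := {h | ∀ ε > 0, ∀ᶠ k in (U : Filter ℕ), ∃ x ∈ N k, ‖x - h‖ < ε}
  zero_mem' := fun ε hε => Eventually.of_forall fun k => ⟨0, (N k).zero_mem, by simpa using hε⟩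
  add_mem' := fun {a b} ha hb ε hε => by
    filter_upwards [ha (ε / 2) (by positivity), hb (ε / 2) (by positivity)] with k h1 h2
    obtain ⟨x, hx, hx'⟩ := h1
    obtain ⟨y, hy, hy'⟩ := h2
    refine ⟨x + y, (N k).add_mem hx hy, ?_⟩
    have : x + y - (a + b) = (x - a) + (y - b) := by abel
    rw [this]
    exact (norm_add_le _ _).trans_lt (by linarith)
  neg_mem' := fun {a} ha ε hε => by
    filter_upwards [ha ε hε] with k h1
    obtain ⟨x, hx, hx'⟩ := h1
    refine ⟨-x, (N k).neg_mem hx, ?_⟩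
    have : -x - -a = -(x - a) := by abel
    rwa [this, norm_neg]

omit [NormedSpace ℝ E] in
theorem mem_limSub {U : Ultrafilter ℕ} {N : ℕ → AddSubgroup E} {h : E} :
    h ∈ limSub U N ↔ ∀ ε > 0, ∀ᶠ k in (U : Filter ℕ), ∃ x ∈ N k, ‖x - h‖ < ε := Iff.rfl

omit [NormedSpace ℝ E] in
theorem isClosed_limSub (U : Ultrafilter ℕ) (N : ℕ → AddSubgroup E) :
    IsClosed (limSub U N : Set E) := by
  refine isClosed_of_closure_subset fun h hh => mem_limSub.2 fun ε hε => ?_
  obtain ⟨b, hb, hd⟩ := Metric.mem_closure_iff.1 hh (ε / 2) (by positivity)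
  filter_upwards [mem_limSub.1 hb (ε / 2) (by positivity)] with k h1
  obtain ⟨x, hx, hx'⟩ := h1
  refine ⟨x, hx, ?_⟩
  have : x - h = (x - b) + (b - h) := by abel
  rw [this]
  rw [dist_comm, dist_eq_norm] at hd
  exact (norm_add_le _ _).trans_lt (by linarith)

/-- A closed subgroup containing short vectors in a limiting direction contains the line. -/
theorem line_mem (U : Ultrafilter ℕ) (H : AddSubgroup E) (hH : IsClosed (H : Set E))
    (h : ℕ → E) (r : ℕ → ℝ) (u : E) (hh : ∀ᶠ k in (U : Filter ℕ), h k ∈ H ∧ 0 < r k)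
    (hr : Tendsto r U (𝓝 0)) (hu : Tendsto (fun k => (r k)⁻¹ • h k) U (𝓝 u)) (t : ℝ) :
    t • u ∈ H := by
  have h1 : Tendsto (fun k => (⌊t / r k⌋ : ℝ) * r k) U (𝓝 t) := by
    have h2 : Tendsto (fun k => t - r k) U (𝓝 t) := by simpa using tendsto_const_nhds.sub hr
    refine tendsto_of_tendsto_of_tendsto_of_le_of_le' h2 tendsto_const_nhds ?_ ?_
    · filter_upwards [hh] with k hk
      have a1 := Int.sub_one_lt_floor (t / r k)
      have a2 := mul_lt_mul_of_pos_right a1 hk.2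
      rw [sub_mul, div_mul_cancel₀ _ hk.2.ne'] at a2
      linarith
    · filter_upwards [hh] with k hk
      have a1 := Int.floor_le (t / r k)
      have a2 := mul_le_mul_of_nonneg_right a1 hk.2.le
      rwa [div_mul_cancel₀ _ hk.2.ne'] at a2
  refine hH.mem_of_tendsto (h1.smul hu) ?_
  filter_upwards [hh] with k hk
  rw [smul_smul, mul_assoc, mul_inv_cancel₀ hk.2.ne', mul_one, Int.cast_smul_eq_zsmul]
  exact H.zsmul_mem hk.1 _

/-- Almost all members of the sequence lie in the limit. -/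
theorem eventually_le_limSub [ProperSpace E] (U : Ultrafilter ℕ) (N : ℕ → AddSubgroup E)
    (Λ : AddSubgroup E) (R : ℝ) (hΛ : ∀ k, Λ ≤ N k) (hR : ∀ x : E, ∃ l ∈ Λ, ‖x - l‖ ≤ R) :
    ∀ᶠ k in (U : Filter ℕ), N k ≤ limSub U N := by
  set H := limSub U N with hHdef
  have hH : IsClosed (H : Set E) := isClosed_limSub U N
  have hne : (H : Set E).Nonempty := ⟨0, H.zero_mem⟩
  have hΛH : Λ ≤ H := fun l hl => mem_limSub.2 fun ε hε =>
    Eventually.of_forall fun k => ⟨l, hΛ k hl, by simpa using hε⟩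
  have hshift : ∀ x : E, ∀ h ∈ H, infDist (x - h) H = infDist x H := by
    have key : ∀ x : E, ∀ h ∈ H, infDist (x - h) H ≤ infDist x H := by
      intro x h hh
      obtain ⟨y, hy, hd⟩ := hH.exists_infDist_eq_dist hne x
      rw [hd]
      have := infDist_le_dist_of_mem (x := x - h) (H.sub_mem hy hh)
      rwa [dist_sub_right] at this
    intro x h hh
    refine le_antisymm (key x h hh) ?_
    have := key (x - h) (-h) (H.neg_mem hh)
    rwa [sub_neg_eq_add, sub_add_cancel] at this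
  have hbd : ∀ x : E, infDist x H ≤ R := fun x => by
    obtain ⟨l, hl, hd⟩ := hR x
    exact (infDist_le_dist_of_mem (hΛH hl)).trans (by rwa [dist_eq_norm])
  by_contra hcon
  rw [← Ultrafilter.eventually_not] at hcon
  -- choose almost farthest points
  have hpick : ∀ k, ¬ N k ≤ H → ∃ y : E, 0 < ‖y‖ ∧ ‖y‖ = infDist y H ∧
      (∃ h ∈ H, y + h ∈ N k) ∧ infDist ((2 : ℝ) • y) H ≤ 3 / 2 * ‖y‖ := by
    intro k hk
    obtain ⟨x0, hx0, hx0'⟩ := SetLike.not_le_iff_exists.1 hk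
    have hpos : 0 < infDist x0 H := (hH.notMem_iff_infDist_pos hne).1 hx0'
    have hb : BddAbove ((fun x => infDist x H) '' (N k : Set E)) :=
      ⟨R, by rintro _ ⟨x, -, rfl⟩; exact hbd x⟩
    have hn : ((fun x => infDist x H) '' (N k : Set E)).Nonempty := ⟨_, x0, hx0, rfl⟩
    set D := sSup ((fun x => infDist x H) '' (N k : Set E))
    have hD : 0 < D := hpos.trans_le (le_csSup hb ⟨x0, hx0, rfl⟩)
    obtain ⟨_, ⟨x, hx, rfl⟩, hlt⟩ := exists_lt_of_lt_csSup hn (show 2 / 3 * D < D by linarith)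
    obtain ⟨h, hh, hd⟩ := hH.exists_infDist_eq_dist hne x
    simp only at hlt
    rw [dist_eq_norm] at hd
    refine ⟨x - h, by rw [← hd]; linarith, by rw [hshift x h hh, hd], ⟨h, hh, by simpa⟩, ?_⟩
    have e : (2 : ℝ) • (x - h) = (x + x) - (h + h) := by rw [two_smul]; abel
    rw [e, hshift _ _ (H.add_mem hh hh), ← hd]
    have := le_csSup hb ⟨x + x, (N k).add_mem hx hx, rfl⟩
    simp only at this
    linarith
  classical
  have hex : ∀ k, ∃ y h' : E, ¬ N k ≤ H → (0 < ‖y‖ ∧ ‖y‖ = infDist y H ∧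
      (∃ h ∈ H, y + h ∈ N k) ∧ h' ∈ H ∧ ‖(2 : ℝ) • y - h'‖ ≤ 3 / 2 * ‖y‖) := by
    intro k
    by_cases hk : N k ≤ H
    · exact ⟨0, 0, fun h => absurd hk h⟩
    · obtain ⟨y, h1, h2, h3, h4⟩ := hpick k hk
      obtain ⟨h', hh', hd⟩ := hH.exists_infDist_eq_dist hne ((2 : ℝ) • y)
      exact ⟨y, h', fun _ => ⟨h1, h2, h3, hh', by rw [← dist_eq_norm, ← hd]; exact h4⟩⟩
  choose y h' hy using hex
  -- the lengths tend to zero
  have hr : Tendsto (fun k => ‖y k‖) U (𝓝 0) := by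
    have hz : ∀ k, ∃ z : E, ¬ N k ≤ H → (z ∈ N k ∧ ‖z‖ ≤ R ∧ infDist z H = ‖y k‖) := by
      intro k
      by_cases hk : N k ≤ H
      · exact ⟨0, fun h => absurd hk h⟩
      · obtain ⟨-, h2, ⟨h, hh, h3⟩, -⟩ := hy k hk
        obtain ⟨l, hl, hd⟩ := hR (y k + h)
        refine ⟨y k + h - l, fun _ => ⟨(N k).sub_mem h3 (hΛ k hl), hd, ?_⟩⟩
        rw [hshift _ _ (hΛH hl), ← hshift _ _ hh, add_sub_cancel_right, ← h2]
    choose z hz using hz
    have hle : (U.map z : Filter E) ≤ 𝓟 (closedBall (0 : E) R) := by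
      rw [le_principal_iff, Ultrafilter.coe_map, mem_map]
      filter_upwards [hcon] with k hk
      simpa using (hz k hk).2.1
    obtain ⟨z0, -, hz0⟩ := (isCompact_closedBall (0 : E) R).ultrafilter_le_nhds _ hle
    have hz1 : Tendsto z U (𝓝 z0) := hz0
    have hmem : z0 ∈ H := mem_limSub.2 fun ε hε => by
      filter_upwards [hcon, (Metric.tendsto_nhds.1 hz1) ε hε] with k hk h2
      exact ⟨z k, (hz k hk).1, by rwa [← dist_eq_norm]⟩
    have h3 : Tendsto (fun k => infDist (z k) H) U (𝓝 (infDist z0 H)) :=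
      ((continuous_infDist_pt (H : Set E)).tendsto z0).comp hz1
    rw [infDist_zero_of_mem hmem] at h3
    refine h3.congr' ?_
    filter_upwards [hcon] with k hk
    exact (hz k hk).2.2
  -- limits of the rescaled vectors
  have hlim : ∀ (f : ℕ → E) (B : ℝ), (∀ᶠ k in (U : Filter ℕ), ‖f k‖ ≤ B) →
      ∃ a, Tendsto f U (𝓝 a) := by
    intro f B hf
    have hle : (U.map f : Filter E) ≤ 𝓟 (closedBall (0 : E) B) := by
      rw [le_principal_iff, Ultrafilter.coe_map, mem_map]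
      filter_upwards [hf] with k hk
      simpa using hk
    obtain ⟨a, -, ha⟩ := (isCompact_closedBall (0 : E) B).ultrafilter_le_nhds _ hle
    exact ⟨a, ha⟩
  have hn1 : ∀ᶠ k in (U : Filter ℕ), ‖‖y k‖⁻¹ • y k‖ = 1 := by
    filter_upwards [hcon] with k hk
    rw [norm_smul, norm_inv, norm_norm, inv_mul_cancel₀ (hy k hk).1.ne']
  have hn2 : ∀ᶠ k in (U : Filter ℕ),
      ‖(2 : ℝ) • (‖y k‖⁻¹ • y k) - ‖y k‖⁻¹ • h' k‖ ≤ 3 / 2 := by
    filter_upwards [hcon] with k hk
    obtain ⟨h1, -, -, -, h5⟩ := hy k hk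
    rw [smul_comm, ← smul_sub, norm_smul, norm_inv, norm_norm, inv_mul_le_iff₀ h1]
    linarith
  obtain ⟨a, ha⟩ := hlim (fun k => ‖y k‖⁻¹ • y k) 1 (hn1.mono fun k hk => hk.le)
  obtain ⟨u, hu⟩ := hlim (fun k => ‖y k‖⁻¹ • h' k) (2 + 3 / 2) (by
    filter_upwards [hn1, hn2] with k h1 h2
    have := norm_sub_le ((2 : ℝ) • (‖y k‖⁻¹ • y k))
      ((2 : ℝ) • (‖y k‖⁻¹ • y k) - ‖y k‖⁻¹ • h' k)
    rw [sub_sub_cancel, norm_smul (2 : ℝ), h1] at this
    simp only [Real.norm_ofNat] at this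
    linarith)
  have hline := line_mem U H hH h' (fun k => ‖y k‖) u (by
    filter_upwards [hcon] with k hk
    exact ⟨(hy k hk).2.2.2.1, (hy k hk).1⟩) hr hu
  have ha1 : ‖a‖ = 1 := tendsto_nhds_unique ha.norm (tendsto_const_nhds.congr' (hn1.mono
    fun k hk => hk.symm))
  have hau : ‖(2 : ℝ) • a - u‖ ≤ 3 / 2 :=
    le_of_tendsto ((ha.const_smul (2 : ℝ)).sub hu).norm hn2
  have hmin : ∀ t : ℝ, 1 ≤ ‖a - t • u‖ := by
    intro t
    refine ge_of_tendsto (ha.sub_const (t • u)).norm ?_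
    filter_upwards [hcon] with k hk
    obtain ⟨h1, h2, -⟩ := hy k hk
    have h3 := infDist_le_dist_of_mem (x := y k) (hline (‖y k‖ * t))
    rw [← h2, dist_eq_norm] at h3
    have e : ‖y k‖⁻¹ • y k - t • u = ‖y k‖⁻¹ • (y k - (‖y k‖ * t) • u) := by
      rw [smul_sub, smul_smul, ← mul_assoc, inv_mul_cancel₀ h1.ne', one_mul]
    rw [e, norm_smul, norm_inv, norm_norm, le_inv_mul_iff₀ h1]
    linarith
  have h4 := hmin (1 / 2)
  have e : (2 : ℝ) • a - u = (2 : ℝ) • (a - (1 / 2 : ℝ) • u) := by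
    rw [smul_sub, smul_smul]; norm_num
  rw [e, norm_smul] at hau
  simp only [Real.norm_ofNat] at hau
  linarith

end Pool.Agent.Lib.MP_c5e1db_ag
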