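import Pool.Agent.Lib.MP_c5e1db_ag.Defs

/-!
Moving a weight to the first wall, and initial forms of products of Laurent polynomials.
-/

namespace Pool.Agent.Lib.MP_c5e1db_ag

open Finset Pointwise

theorem wall {α : Type} (s : Finset α) (a b : α → ℤ) (m : α) (ha : ∀ q ∈ s, a m ≤ a q)
    (hab : ∀ q ∈ s, a q = a m → b m ≤ b q) (hq : ∃ q ∈ s, b q < b m) :
    ∃ q0 ∈ s, b q0 < b m ∧ a m < a q0 ∧ ∀ q ∈ s,
      (b m - b q0) * a m + (a q0 - a m) * b m ≤ (b m - b q0) * a q + (a q0 - a m) * b q := by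
  classical
  have hpos : ∀ q ∈ s, b q < b m → a m < a q := fun q hq h =>
    lt_of_le_of_ne (ha q hq) fun e => absurd (hab q hq e.symm) (not_le.2 h)
  obtain ⟨q1, hq1, hq1'⟩ := hq
  obtain ⟨q0, hq0, hmax⟩ := (s.filter fun q => b q < b m).exists_max_image
    (fun q => ((b m - b q : ℤ) : ℚ) / ((a q - a m : ℤ) : ℚ)) ⟨q1, mem_filter.2 ⟨hq1, hq1'⟩⟩
  obtain ⟨h0, h1⟩ := mem_filter.1 hq0
  have h2 := hpos q0 h0 h1
  refine ⟨q0, h0, h1, h2, fun q hq => ?_⟩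
  by_cases h : b q < b m
  · have h3 := hmax q (mem_filter.2 ⟨hq, h⟩)
    have h4 := hpos q hq h
    rw [div_le_div_iff₀ (by exact_mod_cast sub_pos.2 h4) (by exact_mod_cast sub_pos.2 h2)] at h3
    have h5 : (b m - b q) * (a q0 - a m) ≤ (b m - b q0) * (a q - a m) := by exact_mod_cast h3
    linarith
  · have h3 := mul_nonneg (sub_pos.2 h1).le (sub_nonneg.2 (ha q hq))
    have h4 := mul_nonneg (sub_pos.2 h2).le (sub_nonneg.2 (not_lt.1 h))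
    linarith

variable {d : ℕ}

theorem mem_face {s : Finset (Fin d → ℤ)} {w q : Fin d → ℤ} :
    q ∈ face s w ↔ q ∈ s ∧ ∀ q' ∈ s, w ⬝ᵥ q ≤ w ⬝ᵥ q' := mem_filter

theorem face_nonempty {s : Finset (Fin d → ℤ)} (hs : s.Nonempty) (w : Fin d → ℤ) :
    (face s w).Nonempty := by
  obtain ⟨q, hq, h⟩ := s.exists_min_image (fun q => w ⬝ᵥ q) hs
  exact ⟨q, mem_face.2 ⟨hq, h⟩⟩

/-- The initial form is a monomial times a unit at the fixed point. -/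
def LocMono (rays s : Finset (Fin d → ℤ)) (w : Fin d → ℤ) : Prop :=
  ∃ m ∈ face s w, ∀ q ∈ face s w, q - m ∈ dual rays

theorem cast_dot (ell : Fin d → ℝ) (σ τ : ℤ) (w e : Fin d → ℤ) :
    ∑ j, ell j * ((σ • w + τ • e) j : ℤ) = σ * ∑ j, ell j * w j + τ * ∑ j, ell j * e j := by
  simp only [Pi.add_apply, Pi.smul_apply, smul_eq_mul, Int.cast_add, Int.cast_mul, mul_sum,
    ← sum_add_distrib]
  exact sum_congr rfl fun j _ => by ring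

theorem move (rays s : Finset (Fin d → ℤ)) (ell : Fin d → ℝ) (w e m : Fin d → ℤ) (c : ℝ)
    (hc : c ≤ 1) (he : e ∈ rays) (hell : ∀ q ∈ s, ∑ j, ell j * e j - 1 ≤ (e ⬝ᵥ q : ℤ))
    (hw : ∀ m ∈ dual rays, 0 ≤ w ⬝ᵥ m) (ha : ∀ q ∈ s, ∑ j, ell j * w j - (w ⬝ᵥ q : ℤ) < c)
    (hm : m ∈ face s w) (hm' : ∀ q ∈ face s w, q - m ∈ dual rays)
    (hq : ∃ q ∈ s, e ⬝ᵥ q < e ⬝ᵥ m) :
    ∃ σ τ : ℤ, 0 < σ ∧ 0 < τ ∧ ¬ LocMono rays s (σ • w + τ • e) ∧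
      ∀ q ∈ s, ∑ j, ell j * ((σ • w + τ • e) j : ℤ) - ((σ • w + τ • e) ⬝ᵥ q : ℤ) < c := by
  obtain ⟨hms, hmin⟩ := mem_face.1 hm
  obtain ⟨q0, hq0, h1, h2, h3⟩ := wall s (fun q => w ⬝ᵥ q) (fun q => e ⬝ᵥ q) m hmin
    (fun q hq h => by
      have := hm' q (mem_face.2 ⟨hq, fun q' hq' => h ▸ hmin q' hq'⟩) e he
      rw [dotProduct_sub] at this
      linarith) hq
  have hdot : ∀ (σ τ : ℤ) q, (σ • w + τ • e) ⬝ᵥ q = σ * (w ⬝ᵥ q) + τ * (e ⬝ᵥ q) := fun σ τ q => by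
    rw [add_dotProduct, smul_dotProduct, smul_dotProduct, smul_eq_mul, smul_eq_mul]
  refine ⟨e ⬝ᵥ m - e ⬝ᵥ q0, w ⬝ᵥ q0 - w ⬝ᵥ m, sub_pos.2 h1, sub_pos.2 h2, ?_, fun q hq => ?_⟩
  · rintro ⟨m', hf, hf'⟩
    obtain ⟨hm's, hm'min⟩ := mem_face.1 hf
    have f1 : m ∈ face s ((e ⬝ᵥ m - e ⬝ᵥ q0) • w + (w ⬝ᵥ q0 - w ⬝ᵥ m) • e) :=
      mem_face.2 ⟨hms, fun q hq => by rw [hdot, hdot]; exact h3 q hq⟩
    have f2 : q0 ∈ face s ((e ⬝ᵥ m - e ⬝ᵥ q0) • w + (w ⬝ᵥ q0 - w ⬝ᵥ m) • e) :=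
      mem_face.2 ⟨hq0, fun q hq => by rw [hdot, hdot]; linarith [h3 q hq]⟩
    have a1 := hw _ (hf' q0 f2)
    have a2 := hf' q0 f2 e he
    have a3 := (mem_face.1 f2).2 m' hm's
    have a4 := hmin m' hm's
    have a5 := hw _ (hf' m f1)
    rw [dotProduct_sub] at a1 a2 a5
    rw [hdot, hdot] at a3
    have b1 := mul_nonneg (sub_pos.2 h2).le a2
    have b2 : w ⬝ᵥ m' = w ⬝ᵥ m := by linarith
    rw [b2] at a3
    have b3 := mul_pos (sub_pos.2 h1) (sub_pos.2 h2)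
    linarith
  · rw [cast_dot, hdot]
    have a1 := h3 q hq
    have a2 := ha m hms
    have a3 := hell q0 hq0
    generalize w ⬝ᵥ q = wq at *
    generalize e ⬝ᵥ q = eq at *
    generalize w ⬝ᵥ m = wm at *
    generalize e ⬝ᵥ m = em at *
    generalize w ⬝ᵥ q0 = wq0 at *
    generalize e ⬝ᵥ q0 = eq0 at *
    generalize ∑ j, ell j * (w j : ℝ) = lw at *
    generalize ∑ j, ell j * (e j : ℝ) = le at *
    have b1 : ((em - eq0 : ℤ) : ℝ) * wm + ((wq0 - wm : ℤ) : ℝ) * em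
        ≤ ((em - eq0 : ℤ) : ℝ) * wq + ((wq0 - wm : ℤ) : ℝ) * eq := by exact_mod_cast a1
    have b2 : (1 : ℝ) ≤ ((em - eq0 : ℤ) : ℝ) := by exact_mod_cast (by omega : 1 ≤ em - eq0)
    have b3 : (1 : ℝ) ≤ ((wq0 - wm : ℤ) : ℝ) := by exact_mod_cast (by omega : 1 ≤ wq0 - wm)
    have b4 : le - em ≤ 1 - ((em - eq0 : ℤ) : ℝ) := by push_cast; linarith
    rw [Int.cast_add, Int.cast_mul, Int.cast_mul]
    generalize ((em - eq0 : ℤ) : ℝ) = σ at *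
    generalize ((wq0 - wm : ℤ) : ℝ) = τ at *
    have b5 : τ * (le - em) ≤ τ * (1 - σ) := mul_le_mul_of_nonneg_left b4 (by linarith)
    have b6 : 0 ≤ (τ - 1) * (σ - 1) := mul_nonneg (by linarith) (by linarith)
    have b7 : 0 ≤ (σ - 1) * (1 - (lw - wm)) := mul_nonneg (by linarith) (by linarith)
    nlinarith

theorem tie (rays s : Finset (Fin d → ℤ)) (hs : s.Nonempty)
    (full : ∀ m : Fin d → ℤ, (∀ e ∈ rays, e ⬝ᵥ m = 0) → m = 0) (w : Fin d → ℤ)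
    (h : ¬ LocMono rays s w) :
    ∃ u : Fin d → ℤ, (∀ m ∈ dual rays, m ≠ 0 → 0 < u ⬝ᵥ m) ∧
      ∃ q1 ∈ face (face s w) u, ∃ q2 ∈ face (face s w) u, q1 ≠ q2 := by
  let u0 : Fin d → ℤ := ∑ e ∈ rays, e
  have hu0 : ∀ m ∈ dual rays, m ≠ 0 → 0 < u0 ⬝ᵥ m := fun m hm h0 => by
    rw [sum_dotProduct]
    refine sum_pos' (fun e he => hm e he) ?_
    by_contra hcon
    push Not at hcon
    exact h0 (full m fun e he => le_antisymm (hcon e he) (hm e he))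
  obtain ⟨m, hm⟩ := face_nonempty (face_nonempty hs w) u0
  by_cases h2 : ∃ q ∈ face (face s w) u0, q ≠ m
  · obtain ⟨q, hq, hne⟩ := h2
    exact ⟨u0, hu0, q, hq, m, hm, hne⟩
  push Not at h2
  obtain ⟨hm1, hm2⟩ := mem_face.1 hm
  have h3 : ∃ q ∈ face s w, q - m ∉ dual rays := by
    by_contra hcon
    push Not at hcon
    exact h ⟨m, hm1, hcon⟩
  obtain ⟨q, hq, hq'⟩ := h3
  simp only [dual, Set.mem_ofPred_eq, not_forall, not_le] at hq'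
  obtain ⟨e, he, hlt⟩ := hq'
  rw [dotProduct_sub] at hlt
  obtain ⟨q0, hq0, h4, h5, h6⟩ := wall (face s w) (fun q => u0 ⬝ᵥ q) (fun q => e ⬝ᵥ q) m hm2
    (fun q hq h => by
      rw [h2 q (mem_face.2 ⟨hq, fun q' hq' => h ▸ hm2 q' hq'⟩)]) ⟨q, hq, by linarith⟩
  have hdot : ∀ (σ τ : ℤ) q, (σ • u0 + τ • e) ⬝ᵥ q = σ * (u0 ⬝ᵥ q) + τ * (e ⬝ᵥ q) :=
    fun σ τ q => by
      rw [add_dotProduct, smul_dotProduct, smul_dotProduct, smul_eq_mul, smul_eq_mul]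
  refine ⟨(e ⬝ᵥ m - e ⬝ᵥ q0) • u0 + (u0 ⬝ᵥ q0 - u0 ⬝ᵥ m) • e, fun m' hm' h0 => ?_, m,
    mem_face.2 ⟨hm1, fun q hq => by rw [hdot, hdot]; exact h6 q hq⟩, q0,
    mem_face.2 ⟨hq0, fun q hq => by rw [hdot, hdot]; linarith [h6 q hq]⟩, ?_⟩
  · rw [hdot]
    exact add_pos_of_pos_of_nonneg (mul_pos (sub_pos.2 h4) (hu0 m' hm' h0))
      (mul_nonneg (sub_pos.2 h5).le (hm' e he))
  · rintro rfl
    exact lt_irrefl _ h4

theorem exists_min_mul {Λ : Type} [AddCommGroup Λ] [LinearOrder Λ] [IsOrderedAddMonoid Λ]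
    (W : (Fin d → ℤ) →+ Λ) {f g : AddMonoidAlgebra ℂ (Fin d → ℤ)} (hf : f ≠ 0) (hg : g ≠ 0) :
    ∃ a ∈ f.coeff.support, ∃ b ∈ g.coeff.support, (∀ a' ∈ f.coeff.support, W a ≤ W a') ∧
      (∀ b' ∈ g.coeff.support, W b ≤ W b') ∧ a + b ∈ (f * g).coeff.support := by
  classical
  have hne : ∀ p : AddMonoidAlgebra ℂ (Fin d → ℤ), p ≠ 0 →
      (p.coeff.support.filter fun a => ∀ a' ∈ p.coeff.support, W a ≤ W a').Nonempty := by
    intro p hp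
    obtain ⟨a, ha, h⟩ := p.coeff.support.exists_min_image W
      (Finsupp.support_nonempty_iff.2 fun h => hp (AddMonoidAlgebra.coeff_eq_zero.1 h))
    exact ⟨a, mem_filter.2 ⟨ha, h⟩⟩
  obtain ⟨a, ha, b, hb, hu⟩ := UniqueSums.uniqueAdd_of_nonempty (hne f hf) (hne g hg)
  obtain ⟨ha1, ha2⟩ := mem_filter.1 ha
  obtain ⟨hb1, hb2⟩ := mem_filter.1 hb
  refine ⟨a, ha1, b, hb1, ha2, hb2, ?_⟩
  have hu' : UniqueAdd f.coeff.support g.coeff.support a b := by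
    intro a' b' ha' hb' e
    have e2 : W a' + W b' = W a + W b := by rw [← map_add, e, map_add]
    have h1 := ha2 a' ha'
    have h2 := hb2 b' hb'
    have h3 : W a' = W a := by
      by_contra hne
      exact absurd e2 (add_lt_add_of_lt_of_le (lt_of_le_of_ne h1 (Ne.symm hne)) h2).ne'
    have h4 : W b' = W b := by rw [h3] at e2; exact add_left_cancel e2
    exact hu (mem_filter.2 ⟨ha', fun x hx => h3 ▸ ha2 x hx⟩)
      (mem_filter.2 ⟨hb', fun x hx => h4 ▸ hb2 x hx⟩) e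
  rw [Finsupp.mem_support_iff, AddMonoidAlgebra.coeff_mul_add_of_uniqueAdd hu']
  exact mul_ne_zero (Finsupp.mem_support_iff.1 ha1) (Finsupp.mem_support_iff.1 hb1)

theorem mem_support_mul {f g : AddMonoidAlgebra ℂ (Fin d → ℤ)} {m : Fin d → ℤ}
    (h : m ∈ (f * g).coeff.support) :
    ∃ a ∈ f.coeff.support, ∃ b ∈ g.coeff.support, a + b = m := by
  classical
  exact mem_add.1 (AddMonoidAlgebra.support_coeff_mul_subset f g h)

end Pool.Agent.Lib.MP_c5e1db_ag
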